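import Mathlib

/-!
# Representations of orthogonal Lie algebras with two weights are Clifford modules
-/

set_option autoImplicit false
set_option linter.unusedSectionVars false
set_option linter.unusedVariables false

namespace Pool.Agent.H851.KD

variable {C : Type} [Field C] [CharZero C] {R : Type} [Ring R] [Algebra C R]

theorem waux {n e f : R} {b : C} (hb : b ≠ 0) (hee : e * e = 0) (hne : n * e = e * n + e)
    (hef : e * f = f * e + (-b) • n) : n * e = (2⁻¹ : C) • e ∧ e * n = (-2⁻¹ : C) • e := by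
  have h1 : e * f * e = (-b) • (n * e) := by
    rw [hef, add_mul, mul_assoc f, hee, mul_zero, zero_add, smul_mul_assoc]
  have h2 : e * f * e = b • (e * n) := by
    have h3 : f * e = e * f + b • n := by
      rw [hef]
      module
    rw [mul_assoc, h3, mul_add, ← mul_assoc, hee, zero_mul, zero_add, mul_smul_comm]
  have h3 : b • (e * n + n * e) = 0 := by
    rw [smul_add, ← h2, h1]
    module
  have h4 : e * n + n * e = 0 := (smul_eq_zero.1 h3).resolve_left hb
  have h5 : e * n = -(n * e) := eq_neg_of_add_eq_zero_left h4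
  have h6 : (2 : C) • (n * e) = e := by
    have h7 : n * e + n * e = e := by
      nth_rewrite 1 [hne]
      rw [h5]
      abel
    rw [two_smul, h7]
  have h7 : n * e = (2⁻¹ : C) • e := by
    rw [← h6, smul_smul, inv_mul_cancel₀ two_ne_zero, one_smul, h6]
  exact ⟨h7, by rw [h5, h7]; module⟩

variable {E : Type} [AddCommGroup E] [Module C E] {B : E →ₗ[C] E →ₗ[C] C}
  {A : E →ₗ[C] E →ₗ[C] R} {v v' u₁ : E}

/-- a representation of `so(E)`, given by the operators `A x y` of `x ∧ y`, with the weights `-1/2, 0, 1/2` with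
respect to a hyperbolic plane -/
structure Dat (B : E →ₗ[C] E →ₗ[C] C) (A : E →ₗ[C] E →ₗ[C] R) (v v' u₁ : E) : Prop where
  hs : ∀ x y, B x y = B y x
  hA : ∀ x, A x x = 0
  hbr : ∀ x y z w, A x y * A z w = A z w * A x y +
    (A (B x z • y - B y z • x) w + A z (B x w • y - B y w • x))
  h0 : B v v = 0
  h0' : B v' v' = 0
  h1 : B v v' = 1
  hee : ∀ u, B v u = 0 → B v' u = 0 → A v u * A v u = 0
  hff : ∀ u, B v u = 0 → B v' u = 0 → A v' u * A v' u = 0
  b1 : B v u₁ = 0
  b2 : B v' u₁ = 0
  b3 : B u₁ u₁ ≠ 0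

namespace Dat

variable (D : Dat B A v v' u₁)
include D

theorem swap (x y : E) : A x y = -A y x := by
  have h := D.hA (x + y)
  rw [map_add, map_add, LinearMap.add_apply, LinearMap.add_apply, D.hA, D.hA, zero_add,
    add_zero] at h
  rw [add_comm] at h
  exact eq_neg_of_add_eq_zero_left h

theorem h1' : B v' v = 1 := by rw [D.hs, D.h1]

theorem ne {u : E} (hu : B v u = 0) (hu' : B v' u = 0) :
    A v' v * A v u = A v u * A v' v + A v u := by
  rw [D.hbr, D.h1', D.h0, hu, hu']
  simp only [one_smul, zero_smul, sub_zero, map_zero, add_zero, sub_self]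

theorem nf {u : E} (hu : B v u = 0) (hu' : B v' u = 0) :
    A v' v * A v' u = A v' u * A v' v + (-1 : C) • A v' u := by
  rw [D.hbr, D.h0', D.h1, hu, hu']
  simp only [one_smul, zero_smul, zero_sub, map_zero, add_zero, sub_self, map_neg,
    LinearMap.neg_apply, neg_smul]

theorem ef {u u' : E} (hu : B v u = 0) (hu' : B v' u = 0) (hw : B v u' = 0) (hw' : B v' u' = 0) :
    A v u * A v' u' = A v' u' * A v u + (A u u' + (-(B u u')) • A v' v) := by
  rw [D.hbr, D.h1, D.hs u v', hu', hw]
  simp only [one_smul, zero_smul, zero_sub, sub_zero, map_neg, map_smul, neg_smul]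

theorem exists_c (u : E) : ∃ c : C, B (u + c • u₁) (u + c • u₁) ≠ 0 := by
  by_contra hcon
  push Not at hcon
  have key : ∀ c : C, B u u + 2 * c * B u u₁ + c * c * B u₁ u₁ = 0 := by
    intro c
    have h := hcon c
    simp only [map_add, map_smul, LinearMap.add_apply, LinearMap.smul_apply, smul_eq_mul] at h
    rw [D.hs u₁ u] at h
    linear_combination h
  have k0 := key 0
  have k1 := key 1
  have k2 := key (-1)
  refine D.b3 ?_
  linear_combination (1 / 2 : C) * k1 + (1 / 2 : C) * k2 - k0

/-- the statements for anisotropic vectors extend to all of them -/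
theorem extend {P : E → Prop} (hP : ∀ u, B v u = 0 → B v' u = 0 → B u u ≠ 0 → P u)
    (hadd : ∀ (u w : E) (c : C), P u → P w → P (u + c • w)) {u : E} (hu : B v u = 0)
    (hu' : B v' u = 0) : P u := by
  obtain ⟨c, hc⟩ := D.exists_c u
  have h1 := hP (u + c • u₁) (by rw [map_add, map_smul, hu, D.b1, smul_zero, add_zero])
    (by rw [map_add, map_smul, hu', D.b2, smul_zero, add_zero]) hc
  have h2 := hP u₁ D.b1 D.b2 D.b3
  have h3 := hadd _ _ (-c) h1 h2
  have h4 : u + c • u₁ + -c • u₁ = u := by module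
  rwa [h4] at h3

theorem half_e {u : E} (hu : B v u = 0) (hu' : B v' u = 0) :
    A v' v * A v u = (2⁻¹ : C) • A v u ∧ A v u * A v' v = (-2⁻¹ : C) • A v u := by
  refine D.extend (P := fun u => A v' v * A v u = (2⁻¹ : C) • A v u ∧
    A v u * A v' v = (-2⁻¹ : C) • A v u) (fun u hu hu' hb => ?_) (fun u w c h1 h2 => ?_) hu hu'
  · exact waux hb (D.hee u hu hu') (D.ne hu hu') (by
      rw [D.ef hu hu' hu hu', D.hA, zero_add])
  · rw [map_add, map_smul, mul_add, add_mul, mul_smul_comm, smul_mul_assoc, h1.1, h1.2, h2.1, h2.2]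
    constructor <;> module

theorem half_f {u : E} (hu : B v u = 0) (hu' : B v' u = 0) :
    A v' v * A v' u = (-2⁻¹ : C) • A v' u ∧ A v' u * A v' v = (2⁻¹ : C) • A v' u := by
  refine D.extend (P := fun u => A v' v * A v' u = (-2⁻¹ : C) • A v' u ∧
    A v' u * A v' v = (2⁻¹ : C) • A v' u) (fun u hu hu' hb => ?_) (fun u w c h1 h2 => ?_) hu hu'
  · have h := waux (n := -(A v' v)) (f := A v u) hb (D.hff u hu hu') (by
        rw [neg_mul, mul_neg, D.nf hu hu']
        module) (by
        rw [D.ef hu hu' hu hu', D.hA]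
        module)
    rw [neg_mul, mul_neg] at h
    refine ⟨?_, ?_⟩
    · rw [← neg_neg (A v' v * A v' u), h.1]
      module
    · rw [← neg_neg (A v' u * A v' v), h.2]
      module
  · rw [map_add, map_smul, mul_add, add_mul, mul_smul_comm, smul_mul_assoc, h1.1, h1.2, h2.1, h2.2]
    constructor <;> module

theorem sum {u : E} (hu : B v u = 0) (hu' : B v' u = 0) :
    A v u * A v' u + A v' u * A v u = (-2 * B u u) • (A v' v * A v' v) := by
  have h1 := D.ef hu hu' hu hu'
  rw [D.hA, zero_add] at h1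
  have h2 := congrArg (fun z => A v' v * z) h1
  change A v' v * (A v u * A v' u) = A v' v * (A v' u * A v u + (-(B u u)) • A v' v) at h2
  rw [mul_add, ← mul_assoc, ← mul_assoc, (D.half_e hu hu').1, (D.half_f hu hu').1,
    smul_mul_assoc, smul_mul_assoc, mul_smul_comm] at h2
  linear_combination (norm := module) (2 : C) • h2

theorem cube : A v' v * (A v' v * A v' v) = (4⁻¹ : C) • A v' v := by
  have h1 := D.ef D.b1 D.b2 D.b1 D.b2
  rw [D.hA, zero_add] at h1
  have h2 := congrArg (fun z => A v' v * z) (D.sum D.b1 D.b2)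
  change A v' v * (A v u₁ * A v' u₁ + A v' u₁ * A v u₁) =
    A v' v * ((-2 * B u₁ u₁) • (A v' v * A v' v)) at h2
  rw [mul_add, ← mul_assoc, ← mul_assoc, (D.half_e D.b1 D.b2).1, (D.half_f D.b1 D.b2).1,
    smul_mul_assoc, smul_mul_assoc, mul_smul_comm, h1] at h2
  have h3 : B u₁ u₁ • ((4 : C) • (A v' v * (A v' v * A v' v)) - A v' v) = 0 := by
    linear_combination (norm := module) (2 : C) • h2
  have h4 := (smul_eq_zero.1 h3).resolve_left D.b3
  have h5 : (4 : C) • (A v' v * (A v' v * A v' v)) = A v' v := sub_eq_zero.1 h4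
  rw [← h5, smul_smul, inv_mul_cancel₀ (by norm_num : (4 : C) ≠ 0), one_smul, h5]

end Dat

/-- the projection to the part of weights `±1/2` -/
noncomputable def Pi₀ (A : E →ₗ[C] E →ₗ[C] R) (v v' : E) : R := (4 : C) • (A v' v * A v' v)

namespace Dat

variable (D : Dat B A v v' u₁)
include D

theorem pi_e {u : E} (hu : B v u = 0) (hu' : B v' u = 0) :
    Pi₀ A v v' * A v u = A v u ∧ A v u * Pi₀ A v v' = A v u := by
  constructor
  · rw [Pi₀, smul_mul_assoc, mul_assoc, (D.half_e hu hu').1, mul_smul_comm, (D.half_e hu hu').1,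
      smul_smul, smul_smul]
    norm_num
  · rw [Pi₀, mul_smul_comm, ← mul_assoc, (D.half_e hu hu').2, smul_mul_assoc, (D.half_e hu hu').2,
      smul_smul, smul_smul]
    norm_num

theorem pi_f {u : E} (hu : B v u = 0) (hu' : B v' u = 0) :
    Pi₀ A v v' * A v' u = A v' u ∧ A v' u * Pi₀ A v v' = A v' u := by
  constructor
  · rw [Pi₀, smul_mul_assoc, mul_assoc, (D.half_f hu hu').1, mul_smul_comm, (D.half_f hu hu').1,
      smul_smul, smul_smul]
    norm_num
  · rw [Pi₀, mul_smul_comm, ← mul_assoc, (D.half_f hu hu').2, smul_mul_assoc, (D.half_f hu hu').2,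
      smul_smul, smul_smul]
    norm_num

theorem pi_n : Pi₀ A v v' * A v' v = A v' v ∧ A v' v * Pi₀ A v v' = A v' v := by
  constructor
  · rw [Pi₀, smul_mul_assoc, mul_assoc, D.cube, smul_smul]
    norm_num
  · rw [Pi₀, mul_smul_comm, D.cube, smul_smul]
    norm_num

theorem pi_pi : Pi₀ A v v' * Pi₀ A v v' = Pi₀ A v v' := by
  have h : Pi₀ A v v' * ((4 : C) • (A v' v * A v' v)) = (4 : C) • (A v' v * A v' v) := by
    rw [mul_smul_comm, ← mul_assoc, D.pi_n.1]
  exact h

/-- the decomposition of a vector -/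
theorem dec (x : E) : ∃ u, B v u = 0 ∧ B v' u = 0 ∧ x = B v' x • v + B v x • v' + u := by
  refine ⟨x - (B v' x • v + B v x • v'), ?_, ?_, ?_⟩
  · rw [map_sub, map_add, map_smul, map_smul, D.h0, D.h1, smul_zero, zero_add, smul_eq_mul,
      mul_one, sub_self]
  · rw [map_sub, map_add, map_smul, map_smul, D.h0', D.h1', smul_zero, add_zero, smul_eq_mul,
      mul_one, sub_self]
  · abel

theorem pi_mul (x y : E) : Pi₀ A v v' * A x y = A x y ∧ A x y * Pi₀ A v v' = A x y := by
  let S : Submodule C R :=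
    { carrier := {a | Pi₀ A v v' * a = a ∧ a * Pi₀ A v v' = a}
      zero_mem' := ⟨mul_zero _, zero_mul _⟩
      add_mem' := fun {a b} ha hb => ⟨by rw [mul_add, ha.1, hb.1], by rw [add_mul, ha.2, hb.2]⟩
      smul_mem' := fun c a ha => ⟨by rw [mul_smul_comm, ha.1], by rw [smul_mul_assoc, ha.2]⟩ }
  have hn : A v' v ∈ S := D.pi_n
  have hn' : A v v' ∈ S := by rw [D.swap]; exact S.neg_mem hn
  have he : ∀ {u}, B v u = 0 → B v' u = 0 → A v u ∈ S := fun hu hu' => D.pi_e hu hu'
  have hf : ∀ {u}, B v u = 0 → B v' u = 0 → A v' u ∈ S := fun hu hu' => D.pi_f hu hu'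
  have hmul : ∀ {a b : R}, a ∈ S → b ∈ S → a * b ∈ S := fun {a b} ha hb =>
    ⟨by rw [← mul_assoc, ha.1], by rw [mul_assoc, hb.2]⟩
  have huu : ∀ {u u'}, B v u = 0 → B v' u = 0 → B v u' = 0 → B v' u' = 0 → A u u' ∈ S := by
    intro u u' hu hu' hw hw'
    have h1 : A u u' = A v u * A v' u' - A v' u' * A v u + (B u u') • A v' v := by
      rw [D.ef hu hu' hw hw']
      module
    rw [h1]
    exact S.add_mem (S.sub_mem (hmul (he hu hu') (hf hw hw')) (hmul (hf hw hw') (he hu hu')))
      (S.smul_mem _ hn)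
  have hz : (0 : R) ∈ S := S.zero_mem
  obtain ⟨y₀, y1, y2, hy⟩ := D.dec y
  have hv : A v y ∈ S := by
    rw [hy, map_add, map_add, map_smul, map_smul, D.hA, smul_zero, zero_add]
    exact S.add_mem (S.smul_mem _ hn') (he y1 y2)
  have hv' : A v' y ∈ S := by
    rw [hy, map_add, map_add, map_smul, map_smul, D.hA, smul_zero, add_zero]
    exact S.add_mem (S.smul_mem _ hn) (hf y1 y2)
  have hu : ∀ {u}, B v u = 0 → B v' u = 0 → A u y ∈ S := by
    intro u hu hu'
    rw [hy, map_add, map_add, map_smul, map_smul, D.swap u v, D.swap u v']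
    exact S.add_mem (S.add_mem (S.smul_mem _ (S.neg_mem (he hu hu')))
      (S.smul_mem _ (S.neg_mem (hf hu hu')))) (huu hu hu' y1 y2)
  obtain ⟨x₀, x1, x2, hx⟩ := D.dec x
  have h : A x y ∈ S := by
    rw [hx, map_add, map_add, map_smul, map_smul, LinearMap.add_apply, LinearMap.add_apply,
      LinearMap.smul_apply, LinearMap.smul_apply]
    exact S.add_mem (S.add_mem (S.smul_mem _ hv) (S.smul_mem _ hv')) (hu x1 x2)
  exact h

theorem sqr {x : E} (hx : B (v + v') x = 0) :
    A x (v + v') * A x (v + v') = (-2⁻¹ * B x x) • Pi₀ A v v' := by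
  obtain ⟨u, hu, hu', h⟩ := D.dec x
  have h2 : B v x = -B v' x := by
    rw [map_add, LinearMap.add_apply] at hx
    exact eq_neg_of_add_eq_zero_left hx
  set γ := B v' x with hγ
  have e1 : A x (v + v') = (-2 * γ) • A v' v - A v u - A v' u := by
    rw [h, h2, map_add, map_add, map_add, LinearMap.add_apply, LinearMap.add_apply,
      LinearMap.add_apply, LinearMap.add_apply, map_smul, map_smul, LinearMap.smul_apply,
      LinearMap.smul_apply, LinearMap.smul_apply, LinearMap.smul_apply, D.hA, D.hA, D.swap v v',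
      D.swap u v, D.swap u v']
    module
  have e2 : B x x = -2 * γ ^ 2 + B u u := by
    rw [h, h2]
    simp only [map_add, map_smul, LinearMap.add_apply, LinearMap.smul_apply, smul_eq_mul, D.h0,
      D.h0', D.h1, D.h1', hu, hu', D.hs u v, D.hs u v']
    ring
  rw [e1, e2, Pi₀]
  have e3 := D.sum hu hu'
  have e4 := D.half_e hu hu'
  have e5 := D.half_f hu hu'
  have e6 : ((-2 * γ) • A v' v - A v u - A v' u) * ((-2 * γ) • A v' v - A v u - A v' u) =
      (4 * γ ^ 2) • (A v' v * A v' v) + (2 * γ) • (A v' v * A v u) + (2 * γ) • (A v u * A v' v) +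
        (2 * γ) • (A v' v * A v' u) + (2 * γ) • (A v' u * A v' v) +
        (A v u * A v u + A v' u * A v' u + (A v u * A v' u + A v' u * A v u)) := by
    simp only [sub_mul, mul_sub, smul_mul_assoc, mul_smul_comm]
    module
  rw [e6, e3, e4.1, e4.2, e5.1, e5.2, D.hee u hu hu', D.hff u hu hu']
  module

theorem prod_w {x y : E} (hx : B (v + v') x = 0) (hy : B (v + v') y = 0) :
    A x (v + v') * A y (v + v') = A x y + (-2⁻¹ * B x y) • Pi₀ A v v' := by
  have hw : B (v + v') (v + v') = 2 := by
    simp only [map_add, LinearMap.add_apply, D.h0, D.h0', D.h1, D.h1']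
    norm_num
  have h1 := D.sqr (x := x + y) (by rw [map_add, hx, hy, add_zero])
  have h2 := D.sqr hx
  have h3 := D.sqr hy
  have h4 := D.hbr x (v + v') y (v + v')
  rw [hy, hw, D.hs x (v + v'), hx, zero_smul, zero_smul, sub_zero, zero_sub, map_smul,
    LinearMap.smul_apply, D.hA, smul_zero, zero_add, map_neg, map_smul, D.swap y x] at h4
  have h5 : (A x (v + v') + A y (v + v')) * (A x (v + v') + A y (v + v')) =
      A x (v + v') * A x (v + v') + A y (v + v') * A y (v + v') +
      (A x (v + v') * A y (v + v') + A y (v + v') * A x (v + v')) := by noncomm_ring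
  have h6 : B (x + y) (x + y) = B x x + B y y + 2 * B x y := by
    simp only [map_add, LinearMap.add_apply, D.hs y x]
    ring
  rw [map_add A, LinearMap.add_apply, h5, h2, h3, h6] at h1
  linear_combination (norm := module) (2⁻¹ : C) • h1 + (2⁻¹ : C) • h4

end Dat

/-- the operators of the Clifford module -/
noncomputable def psi (B : E →ₗ[C] E →ₗ[C] C) (A : E →ₗ[C] E →ₗ[C] R) (P : R) (x y : E) : R :=
  B x y • P - (2 : C) • A x y

namespace Dat

variable (D : Dat B A v v' u₁)
include D

theorem psi_mul (x y z : E) : psi B A (Pi₀ A v v') x y * psi B A (Pi₀ A v v') y z =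
    B y y • psi B A (Pi₀ A v v') x z := by
  set P := Pi₀ A v v' with hP
  set w := v + v' with hwd
  have hw : B w w = 2 := by
    rw [hwd]
    simp only [map_add, LinearMap.add_apply, D.h0, D.h0', D.h1, D.h1']
    norm_num
  -- the decomposition along `w`
  have hdec : ∀ x : E, ∃ x₀, B w x₀ = 0 ∧ x = (2⁻¹ * B w x) • w + x₀ := by
    intro x
    refine ⟨x - (2⁻¹ * B w x) • w, ?_, by abel⟩
    rw [map_sub, map_smul, hw, smul_eq_mul]
    ring
  have hPP : P * P = P := D.pi_pi
  have hl : ∀ x y, P * A x y = A x y := fun x y => (D.pi_mul x y).1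
  have hr : ∀ x y, A x y * P = A x y := fun x y => (D.pi_mul x y).2
  have hpw : ∀ {x y : E}, B w x = 0 → B w y = 0 → A x w * A y w =
      A x y + (-2⁻¹ * B x y) • P := fun hx hy => D.prod_w hx hy
  have hwx : ∀ x, A w x = -A x w := fun x => D.swap w x
  clear_value w
  -- the two factors
  have f1 : ∀ x y, psi B A P x y = (2⁻¹ : C) • (psi B A P x w * psi B A P w y) := by
    intro x y
    obtain ⟨x₀, hx0, hx⟩ := hdec x
    obtain ⟨y₀, hy0, hy⟩ := hdec y
    set α := 2⁻¹ * B w x with hα
    set β := 2⁻¹ * B w y with hβ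
    have hx0' : B x₀ w = 0 := by rw [D.hs, hx0]
    have g1 : psi B A P x w = (2 * α) • P - (2 : C) • A x₀ w := by
      rw [psi, hx, map_add, map_add, LinearMap.add_apply, LinearMap.add_apply, map_smul, map_smul,
        LinearMap.smul_apply, LinearMap.smul_apply, D.hA, hw, hx0', smul_eq_mul]
      module
    have g2 : psi B A P w y = (2 * β) • P + (2 : C) • A y₀ w := by
      rw [psi, hy, map_add, map_add, map_smul, map_smul, D.hA, hw, hy0, smul_eq_mul, hwx]
      module
    have g3 : psi B A P x y = (2 * α * β + B x₀ y₀) • P +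
        ((2 * α) • A y₀ w - (2 * β) • A x₀ w - (2 : C) • A x₀ y₀) := by
      rw [psi, hx, hy]
      simp only [map_add, LinearMap.add_apply, map_smul, LinearMap.smul_apply, D.hA, hw, hx0', hy0,
        smul_eq_mul, hwx]
      module
    have g4 : ((2 * α) • P - (2 : C) • A x₀ w) * ((2 * β) • P + (2 : C) • A y₀ w) =
        (4 * α * β) • (P * P) + (4 * α) • (P * A y₀ w) - (4 * β) • (A x₀ w * P) -
          (4 : C) • (A x₀ w * A y₀ w) := by
      simp only [sub_mul, mul_add, smul_mul_assoc, mul_smul_comm]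
      module
    rw [g1, g2, g3, g4, hPP, hl, hr, hpw hx0 hy0]
    module
  have f2 : ∀ y, psi B A P w y * psi B A P y w = (2 * B y y) • P := by
    intro y
    obtain ⟨y₀, hy0, hy⟩ := hdec y
    set β := 2⁻¹ * B w y with hβ
    have hy0' : B y₀ w = 0 := by rw [D.hs, hy0]
    have g1 : psi B A P y w = (2 * β) • P - (2 : C) • A y₀ w := by
      rw [psi, hy, map_add, map_add, LinearMap.add_apply, LinearMap.add_apply, map_smul, map_smul,
        LinearMap.smul_apply, LinearMap.smul_apply, D.hA, hw, hy0', smul_eq_mul]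
      module
    have g2 : psi B A P w y = (2 * β) • P + (2 : C) • A y₀ w := by
      rw [psi, hy, map_add, map_add, map_smul, map_smul, D.hA, hw, hy0, smul_eq_mul, hwx]
      module
    have g3 : B y y = 2 * β ^ 2 + B y₀ y₀ := by
      rw [hy]
      simp only [map_add, LinearMap.add_apply, map_smul, LinearMap.smul_apply, hw, hy0', hy0,
        smul_eq_mul]
      ring
    have g4 : ((2 * β) • P + (2 : C) • A y₀ w) * ((2 * β) • P - (2 : C) • A y₀ w) =
        (4 * β ^ 2) • (P * P) - (4 * β) • (P * A y₀ w) + (4 * β) • (A y₀ w * P) -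
          (4 : C) • (A y₀ w * A y₀ w) := by
      simp only [add_mul, mul_sub, smul_mul_assoc, mul_smul_comm]
      module
    rw [g1, g2, g3, g4, hPP, hl, hr, hpw hy0 hy0, D.hA]
    module
  have hP1 : ∀ x, psi B A P x w * P = psi B A P x w := by
    intro x
    rw [psi, sub_mul, smul_mul_assoc, smul_mul_assoc, hPP, hr]
  rw [f1 x y, f1 y z, f1 x z, smul_mul_smul_comm]
  have g : psi B A P x w * psi B A P w y * (psi B A P y w * psi B A P w z) =
      psi B A P x w * (psi B A P w y * psi B A P y w) * psi B A P w z := by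
    simp only [mul_assoc]
  rw [g, f2, mul_smul_comm, hP1, smul_mul_assoc]
  module

theorem psi_self (x : E) : psi B A (Pi₀ A v v') x x = B x x • Pi₀ A v v' := by
  rw [psi, D.hA, smul_zero, sub_zero]

/-- the projection in terms of an orthogonal pair -/
theorem pi_eq {x y : E} (h : B x y = 0) :
    (-4 : C) • (A x y * A x y) = (B x x * B y y) • Pi₀ A v v' := by
  have h1 := D.psi_mul x y x
  rw [D.psi_self, psi, psi, h, D.hs y x, h, zero_smul, zero_sub, zero_sub, D.swap y x] at h1
  have h2 : -((2 : C) • A x y) * -((2 : C) • -A x y) = (-4 : C) • (A x y * A x y) := by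
    simp only [neg_mul, mul_neg, smul_neg, smul_mul_assoc, mul_smul_comm]
    module
  rw [h2] at h1
  rw [h1]
  module

end Dat

end Pool.Agent.H851.KD
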