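import Mathlib
import Pool.Agent.H851.KS.Cpl

/-!
# The complement is stable under the Galois group
-/

set_option autoImplicit false
set_option linter.unusedSectionVars false
set_option linter.unusedVariables false

namespace Pool.Agent.H851.KD

open Module TensorProduct Pool.Agent.Y114.RM Pool.Agent.R913.Adj
open Pool.Agent.H851.ZD Pool.Agent.H851.IN Pool.Agent.H851.KS
open Pool.Agent.H204R3.GP (FiniteIndexSemisimple)

variable {k : Type} [Field k] [CharZero k] {V W : Type} [AddCommGroup V] [Module k V]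
  [FiniteDimensional k V] [AddCommGroup W] [Module k W] [FiniteDimensional k W] {Γ : Type}
  [Group Γ] {r : Representation k Γ V} {σ : Representation k Γ W}

theorem exists_cpl' (hss : FiniteIndexSemisimple (r.prod σ)) {L : Submodule k (End k (V × W))}
    (hLT : ∀ X, X ∈ L ↔ X ∈ LT (r.prod σ)) (hLie : IsLie L)
    (hAd : ∀ γ, ∀ X ∈ L, AdE ((r.prod σ) γ) ((r.prod σ) γ⁻¹) X ∈ L) :
    ∃ 𝔰 : Submodule k (End k (V × W)), IsCpl L 𝔰 ∧
      ∀ γ, ∀ Z ∈ 𝔰, AdE ((r.prod σ) γ) ((r.prod σ) γ⁻¹) Z ∈ 𝔰 := by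
  let K : Submodule k (End k (V × W)) := L ⊓ LinearMap.ker blk
  have hKm : ∀ Y, Y ∈ K ↔ Y ∈ L ∧ blk Y = 0 := fun Y => Iff.rfl
  have hid : ∀ X ∈ L, ∀ Y ∈ K, X * Y - Y * X ∈ K := by
    intro X hX Y hY
    refine (hKm _).2 ⟨hLie X hX Y hY.1, ?_⟩
    have h1 : blk Y = 0 := hY.2
    rw [map_sub, blk_mul ((hLT Y).1 hY.1), blk_mul ((hLT X).1 hX), h1, mul_zero, zero_mul, sub_zero]
  have hcl : ∀ X, (∀ (m : ℕ) (φ : Tensor k (V × W) m), (∀ Y ∈ K, KillsTensor Y φ) →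
      KillsTensor X φ) → X ∈ K := by
    intro X hX
    have hXL : X ∈ L := (hLT X).2 (mem_LT_of_semisimple (r.prod σ) hss fun m φ hφ =>
      hX m φ fun Y hY => ((hLT Y).1 hY.1).2 m φ hφ)
    refine (hKm _).2 ⟨hXL, LinearMap.ext fun x => ?_⟩
    rw [← sub_eq_zero, LinearMap.zero_apply, sub_zero, ← Module.forall_dual_apply_eq_zero_iff k]
    intro ξ
    let φ : Tensor k (V × W) 1 := MultilinearMap.ofSubsingleton k _ k (0 : Fin 1)
      (ξ ∘ₗ LinearMap.fst k V W ∘ₗ LinearMap.fst k (V × W) (Dual k (V × W)))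
    have hφ : ∀ v, φ v = ξ (v 0).1.1 := fun v => rfl
    have h1 := hX 1 φ (by
      intro Y hY v
      rw [Fin.sum_univ_one, hφ, Function.update_self]
      change ξ (Y (v 0).1).1 = 0
      rw [lt_diag ((hLT Y).1 hY.1), (hY.2 : blk Y = 0)]
      exact map_zero ξ)
    have h2 := h1 fun _ => ((x, 0), 0)
    rw [Fin.sum_univ_one, hφ, Function.update_self] at h2
    exact h2
  have hKLie : IsLie K := fun X hX Y hY => hid X hX.1 Y hY
  have hKAd : ∀ γ, ∀ X ∈ K, AdE ((r.prod σ) γ) ((r.prod σ) γ⁻¹) X ∈ K := by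
    intro γ X hX
    refine (hKm _).2 ⟨hAd γ X hX.1, ?_⟩
    rw [blk_conj, (hX.2 : blk X = 0), map_zero]
  have hnd : NonDeg K := nonDeg_of_closed hss (fun X hX => (hLT X).1 hX.1) hcl hKLie hKAd
  obtain ⟨P, hP⟩ := exists_proj hnd
  have hKL : K ≤ L := inf_le_left
  have hPz : ∀ Z, P Z = 0 ↔ ∀ Y ∈ K, LinearMap.trace k (V × W) (Z * Y) = 0 := by
    intro Z
    constructor
    · intro h Y hY
      rw [← hP.tr Z Y hY, h, zero_mul, map_zero]
    · intro h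
      refine hnd _ (hP.mem Z) fun Y hY => ?_
      rw [hP.tr Z Y hY, h Y hY]
  let 𝔰 : Submodule k (End k (V × W)) := L ⊓ LinearMap.ker P
  have hsm : ∀ Z, Z ∈ 𝔰 ↔ Z ∈ L ∧ P Z = 0 := fun Z => Iff.rfl
  refine ⟨𝔰, ⟨inf_le_left, ?_, ?_, ?_, ?_⟩, ?_⟩
  · intro X hX Z hZ
    refine (hsm _).2 ⟨hLie X hX Z hZ.1, (hPz _).2 fun Y hY => ?_⟩
    have h1 : LinearMap.trace k (V × W) ((X * Z - Z * X) * Y) =
        -LinearMap.trace k (V × W) (Z * (X * Y - Y * X)) := by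
      rw [sub_mul, mul_sub, map_sub, map_sub, mul_assoc X, mul_assoc Z X, ← mul_assoc Z Y X,
        LinearMap.trace_mul_comm k X]
      ring
    rw [h1, (hPz Z).1 hZ.2 _ (hid X hX Y hY), neg_zero]
  · intro X hX
    refine ⟨P X, hKL (hP.mem X), (hP.mem X).2, X - P X, (hsm _).2
      ⟨L.sub_mem hX (hKL (hP.mem X)), ?_⟩, (add_sub_cancel (P X) X).symm⟩
    rw [map_sub, hP.fix _ (hP.mem X), sub_self]
  · intro Y hY hY0 Z hZ
    have hYK : Y ∈ K := (hKm Y).2 ⟨hY, hY0⟩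
    rw [← sub_eq_zero]
    have h1 : Z * Y - Y * Z ∈ K := hid Z hZ.1 Y hYK
    refine hnd _ h1 fun Y' hY' => ?_
    have h2 : LinearMap.trace k (V × W) ((Z * Y - Y * Z) * Y') =
        LinearMap.trace k (V × W) (Z * (Y * Y' - Y' * Y)) := by
      rw [sub_mul, mul_sub, map_sub, map_sub, mul_assoc, mul_assoc Y, ← mul_assoc Z Y' Y,
        LinearMap.trace_mul_comm k Y]
    rw [h2]
    exact (hPz Z).1 hZ.2 _ (hKLie Y hYK Y' hY')
  · intro Z hZ h0
    have h1 : Z ∈ K := (hKm Z).2 ⟨hZ.1, h0⟩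
    rw [← hP.fix Z h1]
    exact hZ.2
  · intro γ Z hZ
    refine (hsm _).2 ⟨hAd γ Z hZ.1, (hPz _).2 fun Y hY => ?_⟩
    have h1 := (hPz Z).1 hZ.2 _ (hKAd γ⁻¹ Y hY)
    rw [AdE_apply, inv_inv] at h1
    rw [AdE_apply]
    have h2 : LinearMap.trace k (V × W) ((r.prod σ) γ * (Z * (r.prod σ) γ⁻¹) * Y) =
        LinearMap.trace k (V × W) (Z * ((r.prod σ) γ⁻¹ * (Y * (r.prod σ) γ))) := by
      rw [mul_assoc, LinearMap.trace_mul_comm]
      simp only [mul_assoc]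
    rw [h2, h1]

end Pool.Agent.H851.KD
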