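import Mathlib
import Pool.Agent.H851.KS.Hyp
import Pool.Agent.H851.KD.Abs
import Pool.Agent.H851.KD.Cpl2

/-!
# The operators of the Clifford module over an extension field
-/

set_option autoImplicit false
set_option linter.unusedSectionVars false
set_option linter.unusedVariables false

namespace Pool.Agent.H851.KD

open Module TensorProduct Pool.Agent.Y114.RM
open Pool.Agent.H851.ZD Pool.Agent.H851.IN Pool.Agent.H851.KT Pool.Agent.H851.KS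

section bil

variable {F : Type} [Field F] {M M' E : Type} [AddCommMonoid M] [Module F M] [AddCommMonoid M']
  [Module F M'] [AddCommMonoid E] [Module F E]

/-- unique lifts depend bilinearly on the parameters -/
theorem exists_bil (𝔰 : Submodule F M) (b : M →ₗ[F] M')
    (hinj : ∀ z ∈ 𝔰, ∀ z' ∈ 𝔰, b z = b z' → z = z') (φ : E → E → M')
    (h1 : ∀ x x' y, φ (x + x') y = φ x y + φ x' y) (h2 : ∀ (c : F) x y, φ (c • x) y = c • φ x y)
    (h3 : ∀ x y y', φ x (y + y') = φ x y + φ x y') (h4 : ∀ (c : F) x y, φ x (c • y) = c • φ x y)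
    (hφ : ∀ x y, ∃ z ∈ 𝔰, b z = φ x y) :
    ∃ Z : E →ₗ[F] E →ₗ[F] M, ∀ x y, Z x y ∈ 𝔰 ∧ b (Z x y) = φ x y := by
  choose f hf hb using hφ
  refine ⟨LinearMap.mk₂ F f (fun x x' y => ?_) (fun c x y => ?_) (fun x y y' => ?_)
    (fun c x y => ?_), fun x y => ⟨hf x y, hb x y⟩⟩
  · exact hinj _ (hf _ _) _ (𝔰.add_mem (hf _ _) (hf _ _)) (by rw [map_add, hb, hb, hb, h1])
  · exact hinj _ (hf _ _) _ (𝔰.smul_mem _ (hf _ _)) (by rw [map_smul, hb, hb, h2])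
  · exact hinj _ (hf _ _) _ (𝔰.add_mem (hf _ _) (hf _ _)) (by rw [map_add, hb, hb, hb, h3])
  · exact hinj _ (hf _ _) _ (𝔰.smul_mem _ (hf _ _)) (by rw [map_smul, hb, hb, h4])

end bil

section dat

variable {k : Type} [Field k] [CharZero k] {C : Type} [Field C] [CharZero C] [IsAlgClosed C]
  [Algebra k C] {V W : Type} [AddCommGroup V] [Module k V] [AddCommGroup W] [Module k W]
  [FiniteDimensional k V] [FiniteDimensional k W] {L 𝔰 : Submodule k (End k (V × W))}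

theorem cpl_lift (h : IsCpl L 𝔰) (hd : ∀ X ∈ L, ∀ x, X x = (blk X x.1, blk2 X x.2))
    {x y w : End C (C ⊗[k] (V × W))} (hx : x ∈ bcS C 𝔰) (hy : y ∈ bcS C 𝔰) (hw : w ∈ bcS C 𝔰)
    (hb : bC x * bC y = bC y * bC x + bC w) : x * y = y * x + w := by
  have hle : bcS C 𝔰 ≤ bcS C L := bcS_mono h.le
  obtain ⟨w', hw', hxy⟩ := bcS_bracket h.ideal (hle hx) hy
  have h2 : bC w' = bC w := by
    have h3 := congrArg bC hxy
    rw [map_add, bC_mul hd (hle hy), bC_mul hd (hle hx), hb] at h3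
    exact (end_cancel h3).symm
  rw [hxy, cpl_inj' h hw' hw h2]

/-- the data over the extension field -/
theorem exists_dat (h : IsCpl L 𝔰) (hd : ∀ X ∈ L, ∀ x, X x = (blk X x.1, blk2 X x.2))
    {B : C ⊗[k] V →ₗ[C] C ⊗[k] V →ₗ[C] C} (hs : ∀ x y, B x y = B y x)
    {E₀ : Submodule C (C ⊗[k] V)} {v v' u₁ : C ⊗[k] V} (hv : v ∈ E₀) (hv' : v' ∈ E₀)
    (hu₁ : u₁ ∈ E₀) (h0 : B v v = 0) (h0' : B v' v' = 0) (h1 : B v v' = 1)
    (b1 : B v u₁ = 0) (b2 : B v' u₁ = 0) (b3 : B u₁ u₁ ≠ 0)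
    (hwd : ∀ x ∈ E₀, ∀ y ∈ E₀, wdg B x y ∈ bcS C (L.map blk))
    {N : End C (C ⊗[k] (V × W))} (hN : N ∈ bcS C L) (hNb : bC N = wdg B v' v)
    {T : End C (C ⊗[k] W)} {t : C → C}
    (hT : ∀ β, ∀ x ∈ T.maxGenEigenspace β, bC2 N x = t β • x)
    (ht : ∀ α β, T.maxGenEigenspace α ≠ ⊥ → T.maxGenEigenspace β ≠ ⊥ → t α ≠ t β + 2 ∧
      t α ≠ t β + -2) :
    ∃ Z : E₀ →ₗ[C] E₀ →ₗ[C] End C (C ⊗[k] (V × W)),
      (∀ x y : E₀, Z x y ∈ bcS C 𝔰 ∧ bC (Z x y) = wdg B x y) ∧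
      (∀ x : E₀, Z x x = 0) ∧
      (∀ x y z w : E₀, bC2 (Z x y) * bC2 (Z z w) = bC2 (Z z w) * bC2 (Z x y) +
        (bC2 (Z (B x z • y - B y z • x) w) + bC2 (Z z (B x w • y - B y w • x)))) ∧
      (∀ u : E₀, B v u = 0 → B v' u = 0 →
        bC2 (Z ⟨v, hv⟩ u) * bC2 (Z ⟨v, hv⟩ u) = 0) ∧
      ∀ u : E₀, B v u = 0 → B v' u = 0 → bC2 (Z ⟨v', hv'⟩ u) * bC2 (Z ⟨v', hv'⟩ u) = 0 := by
  have hle : bcS C 𝔰 ≤ bcS C L := bcS_mono h.le
  obtain ⟨Z, hZ⟩ := exists_bil (E := E₀) (bcS C 𝔰) (bC : _ →ₗ[C] End C (C ⊗[k] V))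
    (fun z hz z' hz' he => cpl_inj' h hz hz' he) (fun x y => wdg B (x : C ⊗[k] V) y)
    (fun x x' y => wdg_add_left _ _ _ _) (fun c x y => wdg_smul_left _ _ _)
    (fun x y y' => wdg_add _ _ _ _) (fun c x y => wdg_smul _ _ _ _)
    (fun x y => cpl_onto h (hwd _ x.2 _ y.2))
  refine ⟨Z, hZ, ?_⟩
  have hm : ∀ x y z w : E₀, bC2 (Z x y * Z z w) = bC2 (Z x y) * bC2 (Z z w) := fun x y z w =>
    bC2_mul hd (hle (hZ z w).1)
  have hbr : ∀ x y z w : E₀, Z x y * Z z w = Z z w * Z x y +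
      (Z (B x z • y - B y z • x) w + Z z (B x w • y - B y w • x)) := by
    intro x y z w
    refine cpl_lift h hd (hZ x y).1 (hZ z w).1
      (Submodule.add_mem _ (hZ _ w).1 (hZ z _).1) ?_
    rw [map_add, (hZ x y).2, (hZ z w).2, (hZ _ w).2, (hZ z _).2]
    exact br_add hs (skew_wdg hs (x : C ⊗[k] V) y) z w
  -- the Frobenius operator
  obtain ⟨κ, n, hn, hNn, hκ0, hκ⟩ := cpl_split h hN
  have hnZ : n = Z ⟨v', hv'⟩ ⟨v, hv⟩ := by
    refine cpl_inj' h hn (hZ _ _).1 ?_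
    rw [hNn, map_add, hκ0, zero_add] at hNb
    rw [hNb, (hZ _ _).2]
  have hbe : ∀ u : E₀, B v u = 0 → B v' u = 0 →
      N * Z ⟨v, hv⟩ u = Z ⟨v, hv⟩ u * N + Z ⟨v, hv⟩ u := by
    intro u hu hu'
    have h2 : n * Z ⟨v, hv⟩ u = Z ⟨v, hv⟩ u * n + Z ⟨v, hv⟩ u := by
      refine cpl_lift h hd hn (hZ _ _).1 (hZ _ _).1 ?_
      rw [hnZ, (hZ _ _).2, (hZ _ _).2]
      exact br_ne h0 h1 hs hu hu'
    rw [hNn, add_mul, mul_add, h2, hκ _ (hZ _ _).1]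
    abel
  have hbf : ∀ u : E₀, B v u = 0 → B v' u = 0 →
      N * Z ⟨v', hv'⟩ u = Z ⟨v', hv'⟩ u * N + (-1 : C) • Z ⟨v', hv'⟩ u := by
    intro u hu hu'
    have h2 : n * Z ⟨v', hv'⟩ u = Z ⟨v', hv'⟩ u * n + (-1 : C) • Z ⟨v', hv'⟩ u := by
      refine cpl_lift h hd hn (hZ _ _).1 (Submodule.smul_mem _ _ (hZ _ _).1) ?_
      rw [map_smul, hnZ, (hZ _ _).2, (hZ _ _).2]
      exact br_nf h0' h1 hs hu hu'
    rw [hNn, add_mul, mul_add, h2, hκ _ (hZ _ _).1]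
    abel
  refine ⟨fun x => ?_, fun x y z w => ?_, fun u hu hu' => ?_, fun u hu hu' => ?_⟩
  · exact cpl_inj h (hZ x x).1 (by rw [(hZ x x).2, wdg_self])
  · have h2 := congrArg bC2 (hbr x y z w)
    rw [map_add, map_add, hm, hm] at h2
    exact h2
  · have h2 := congrArg bC2 (hbe u hu hu')
    rw [map_add, bC2_mul hd (hle (hZ _ _).1), bC2_mul hd hN] at h2
    refine zero_of_two hT ht (Or.inl rfl) ?_
    rw [← mul_assoc, h2, add_mul, mul_assoc, h2, mul_add, mul_assoc, two_smul]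
    abel
  · have h2 := congrArg bC2 (hbf u hu hu')
    rw [map_add, map_smul, bC2_mul hd (hle (hZ _ _).1), bC2_mul hd hN] at h2
    refine zero_of_two hT ht (Or.inr rfl) ?_
    rw [← mul_assoc, h2, add_mul, mul_assoc, h2, mul_add, mul_assoc, smul_mul_assoc,
      mul_smul_comm, add_assoc, ← add_smul]
    norm_num

end dat

end Pool.Agent.H851.KD
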