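import Mathlib
import Pool.Agent.H851.KD.Lift

/-!
# Descent to the base field
-/

set_option autoImplicit false
set_option linter.unusedSectionVars false
set_option linter.unusedVariables false

namespace Pool.Agent.H851.KD

open Module TensorProduct Pool.Agent.Y114.RM Matrix
open Pool.Agent.H851.ZD Pool.Agent.H851.IN Pool.Agent.H851.KT Pool.Agent.H851.KS

section mk

variable {C : Type} [Field C] [CharZero C] {E₁ M' M : Type} [AddCommGroup E₁] [Module C E₁]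
  [AddCommMonoid M'] [Module C M'] [AddCommGroup M] [Module C M]

theorem mk_dat {E₀ : Submodule C E₁} {B : E₁ →ₗ[C] E₁ →ₗ[C] C} (hs : ∀ x y, B x y = B y x)
    {Z : E₀ →ₗ[C] E₀ →ₗ[C] M'} {g : M' →ₗ[C] End C M} {v v' u₁ : E₁} (hv : v ∈ E₀) (hv' : v' ∈ E₀)
    (hu₁ : u₁ ∈ E₀) (h0 : B v v = 0) (h0' : B v' v' = 0) (h1 : B v v' = 1)
    (b1 : B v u₁ = 0) (b2 : B v' u₁ = 0) (b3 : B u₁ u₁ ≠ 0) (f1 : ∀ x : E₀, Z x x = 0)
    (f2 : ∀ x y z w : E₀, g (Z x y) * g (Z z w) = g (Z z w) * g (Z x y) +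
        (g (Z (B x z • y - B y z • x) w) + g (Z z (B x w • y - B y w • x))))
    (f3 : ∀ u : E₀, B v u = 0 → B v' u = 0 → g (Z ⟨v, hv⟩ u) * g (Z ⟨v, hv⟩ u) = 0)
    (f4 : ∀ u : E₀, B v u = 0 → B v' u = 0 → g (Z ⟨v', hv'⟩ u) * g (Z ⟨v', hv'⟩ u) = 0) :
    Dat (R := End C M) (B.domRestrict₁₂ E₀ E₀) (Z.compr₂ g) (⟨v, hv⟩ : E₀) ⟨v', hv'⟩
      ⟨u₁, hu₁⟩ :=
  ⟨fun x y => hs x y, fun x => by
    change g (Z x x) = 0
    rw [f1, map_zero], f2, h0, h0', h1, f3, f4, b1, b2, b3⟩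

end mk

section down

variable {k : Type} [Field k] [CharZero k] {C : Type} [Field C] [CharZero C] [IsAlgClosed C]
  [Algebra k C]

theorem bc_smul {U : Type} [AddCommGroup U] [Module k U] (c : k) (X : End k U) :
    ((c • X).baseChange C : End C (C ⊗[k] U)) = algebraMap k C c • X.baseChange C := by
  rw [LinearMap.baseChange_smul, algebraMap_smul]

/-- the relations over the base field follow from those over the extension field -/
theorem psi_down {E₀ : Type} [AddCommGroup E₀] [Module C E₀] {U : Type} [AddCommGroup U]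
    [Module k U] {B : E₀ →ₗ[C] E₀ →ₗ[C] C} {A : E₀ →ₗ[C] E₀ →ₗ[C] End C (C ⊗[k] U)}
    {v v' u₁ : E₀} (D : Dat (R := End C (C ⊗[k] U)) B A v v' u₁) {T : Type} (i : T → E₀)
    (b : T → T → k) (a : T → T → End k U) (hb : ∀ x y, B (i x) (i y) = algebraMap k C (b x y))
    (ha : ∀ x y, A (i x) (i y) = (a x y).baseChange C) {e₀ e₁ : T} (h01 : b e₀ e₁ = 0)
    (h00 : b e₀ e₀ ≠ 0) (h11 : b e₁ e₁ ≠ 0) :
    ∃ P : End k U, P * P = P ∧ (∀ x y, P * a x y = a x y ∧ a x y * P = a x y) ∧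
      (∀ x y, b x y = 0 → (-4 : k) • (a x y * a x y) = (b x x * b y y) • P) ∧
      ∀ x y z, (b x y • P - (2 : k) • a x y) * (b y z • P - (2 : k) • a y z) =
        b y y • (b x z • P - (2 : k) • a x z) := by
  set P : End k U := (b e₀ e₀ * b e₁ e₁)⁻¹ • (-4 : k) • (a e₀ e₁ * a e₀ e₁) with hP
  have h4 : algebraMap k C (-4) = -4 := by rw [map_neg, map_ofNat]
  have h2 : algebraMap k C 2 = 2 := map_ofNat _ 2
  have hPC : (P.baseChange C : End C (C ⊗[k] U)) = Pi₀ A v v' := by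
    have h := D.pi_eq (x := i e₀) (y := i e₁) (by rw [hb, h01, map_zero])
    rw [hb, hb, ha, ← bc_mul, ← map_mul] at h
    rw [hP, bc_smul, bc_smul, h4, h, smul_smul, ← map_mul,
      inv_mul_cancel₀ (mul_ne_zero h00 h11), map_one, one_smul]
  clear_value P
  have hψ : ∀ x y, ((b x y • P - (2 : k) • a x y).baseChange C : End C (C ⊗[k] U)) =
      psi B A (Pi₀ A v v') (i x) (i y) := by
    intro x y
    rw [LinearMap.baseChange_sub, bc_smul, bc_smul, h2, hPC, psi, hb, ha]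
  refine ⟨P, ?_, fun x y => ⟨?_, ?_⟩, fun x y hxy => ?_, fun x y z => ?_⟩
  · refine bc_inj (C := C) ?_
    rw [bc_mul, hPC, D.pi_pi]
  · refine bc_inj (C := C) ?_
    rw [bc_mul, hPC, ← ha, (D.pi_mul _ _).1]
  · refine bc_inj (C := C) ?_
    rw [bc_mul, hPC, ← ha, (D.pi_mul _ _).2]
  · refine bc_inj (C := C) ?_
    rw [bc_smul, bc_smul, bc_mul, hPC, ← ha, h4, D.pi_eq (by rw [hb, hxy, map_zero]), hb, hb,
      map_mul]
  · refine bc_inj (C := C) ?_
    rw [bc_mul, bc_smul, hψ, hψ, hψ, D.psi_mul, hb]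

end down

section link

variable {k : Type} [Field k] [CharZero k] {C : Type} [Field C] [CharZero C] [IsAlgClosed C]
  [Algebra k C] {n : Type} [Fintype n] [DecidableEq n] {W : Type} [AddCommGroup W] [Module k W]
  [FiniteDimensional k W] {L 𝔰 : Submodule k (End k ((n → k) × W))}

/-- the unique lifts over the two fields -/
theorem lift_bc (h : IsCpl L 𝔰) {q : Matrix n n k} {T : Submodule k (n → k)}
    {Zk : T →ₗ[k] T →ₗ[k] End k ((n → k) × W)}
    (hZk : ∀ x y : T, Zk x y ∈ 𝔰 ∧ blk (Zk x y) = wdg (form q) (x : n → k) y)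
    {ZC : TC C T →ₗ[C] TC C T →ₗ[C] End C (C ⊗[k] ((n → k) × W))}
    (hZC : ∀ x y : TC C T, ZC x y ∈ bcS C 𝔰 ∧
      bC (ZC x y) = wdg (bcB C (form q)) (x : C ⊗[k] (n → k)) y) (x y : T) :
    ZC ⟨1 ⊗ₜ (x : n → k), tmul_mem_TC x.2 1⟩ ⟨1 ⊗ₜ (y : n → k), tmul_mem_TC y.2 1⟩ =
      (Zk x y).baseChange C := by
  refine cpl_inj' h (hZC _ _).1 (mem_bcS (hZk x y).1) ?_
  rw [(hZC _ _).2, bC_bc, (hZk x y).2, bc_wdg]

end link

end Pool.Agent.H851.KD
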