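import Mathlib
import Pool.Agent.H851.KS.Fin
import Pool.Agent.H851.MK.Fam2
import Pool.Agent.H851.KD.Down

/-!
# Representations of K3 type and representations of weight one
-/

set_option autoImplicit false
set_option linter.unusedSectionVars false
set_option linter.unusedVariables false

namespace Pool.Agent.H851.KD

open Module TensorProduct Pool.Agent.Y114.RM Pool.Agent.TH118.SG Polynomial Matrix Topology
open NumberField IsDedekindDomain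
open Pool.Agent.H851.K3 Pool.Agent.H851.KT Pool.Agent.H851.TT Pool.Agent.H851.ZD
open Pool.Agent.H851.IN Pool.Agent.H851.KS
open Pool.Agent.NH56.HY (GK IsFrobenius tw tw_apply R chi_ne Near NonUnip)
open Pool.Agent.H204R3.GP (FiniteIndexSemisimple)

variable {K : Type} [Field K] [NumberField K] {ℓ : ℕ} [hℓ : Fact ℓ.Prime] {n : Type}
    [Fintype n] [DecidableEq n] {q : Matrix n n ℚ_[ℓ]} {S : Finset ℕ} {χ : GK K →* ℚ_[ℓ]}
    {Pol : HeightOneSpectrum (𝓞 K) → ℤ[X]} {ρ : GK K →* Matrix n n ℚ_[ℓ]}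
    {W : Type} [AddCommGroup W] [Module ℚ_[ℓ] W] [FiniteDimensional ℚ_[ℓ] W]

omit [NumberField K] in
/-- the Tate classes form a subrepresentation -/
theorem tate_rep (g : GK K) {x : n → ℚ_[ℓ]} (hx : x ∈ tate χ ρ) : rep χ ρ g x ∈ tate χ ρ := by
  obtain ⟨U, hU, hUx⟩ := hx
  have h1 : ρ g *ᵥ x ∈ tate χ ρ := by
    refine ⟨U.comap (MulAut.conj g⁻¹).toMonoidHom, ?_, fun u hu => ?_⟩
    · have hc : Continuous fun u : GK K => g⁻¹ * u * g⁻¹⁻¹ := by fun_prop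
      exact hU.preimage hc
    · have h2 := hUx _ hu
      have h3 : (MulAut.conj g⁻¹).toMonoidHom u = g⁻¹ * u * g := by
        change g⁻¹ * u * g⁻¹⁻¹ = _
        rw [inv_inv]
      rw [h3] at h2
      have h4 : χ (g⁻¹ * u * g) = χ u := by
        rw [map_mul, map_mul, mul_right_comm, ← map_mul, inv_mul_cancel, map_one, one_mul]
      have h5 : ρ u * ρ g = ρ g * ρ (g⁻¹ * u * g) := by
        rw [← map_mul, ← map_mul]
        congr 1
        group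
      rw [Matrix.mulVec_mulVec, h5, ← Matrix.mulVec_mulVec, h2, h4, Matrix.mulVec_smul]
  rw [rep_apply, tw_apply, Matrix.smul_mulVec]
  exact Submodule.smul_mem _ _ h1

theorem orth_rep (h : IsK3Type q S χ Pol ρ) (g : GK K) {x : n → ℚ_[ℓ]}
    (hx : x ∈ orth q (tate χ ρ)) : rep χ ρ g x ∈ orth q (tate χ ρ) := by
  intro y hy
  rw [← form_apply]
  have h1 := form_rep' h g⁻¹ y x
  rw [inv_inv] at h1
  rw [← h1, form_apply]
  exact hx _ (tate_rep g⁻¹ hy)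

/-- the equivariant projection to the transcendental part -/
theorem exists_pi (h : IsK3Type q S χ Pol ρ) (hss : Semisimple ρ) :
    ∃ π : (n → ℚ_[ℓ]) →ₗ[ℚ_[ℓ]] orth q (tate χ ρ), (∀ x : orth q (tate χ ρ), π x = x) ∧
      (∀ x ∈ tate χ ρ, π x = 0) ∧
      ∀ g x, (π (rep χ ρ g x) : n → ℚ_[ℓ]) = rep χ ρ g (π x) := by
  have hc := (tate_compl h hss).symm
  refine ⟨Submodule.projectionOnto _ _ hc, fun x => Submodule.projectionOnto_apply_left hc x,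
    fun x hx => Submodule.projectionOnto_apply_right hc ⟨x, hx⟩, fun g x => ?_⟩
  obtain ⟨t, ht, s, hs, rfl⟩ := Submodule.mem_sup.1
    (show x ∈ orth q (tate χ ρ) ⊔ tate χ ρ by rw [hc.sup_eq_top]; trivial)
  have e1 : ∀ t ∈ orth q (tate χ ρ), ∀ s ∈ tate χ ρ,
      (Submodule.projectionOnto _ _ hc (t + s) : n → ℚ_[ℓ]) = t := by
    intro t ht s hs
    rw [map_add, (Submodule.projectionOnto_apply_left hc ⟨t, ht⟩ :
      Submodule.projectionOnto _ _ hc t = ⟨t, ht⟩), (Submodule.projectionOnto_apply_right hc ⟨s, hs⟩ :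
      Submodule.projectionOnto _ _ hc s = 0), add_zero]
  rw [map_add, e1 _ (orth_rep h g ht) _ (tate_rep g hs), e1 t ht s hs]

/-- conjugates of elementary skew endomorphisms -/
theorem wdg_conj (h : IsK3Type q S χ Pol ρ) (g : GK K) (x y : n → ℚ_[ℓ]) :
    rep χ ρ g * (wdg (form q) x y * rep χ ρ g⁻¹) =
      wdg (form q) (rep χ ρ g x) (rep χ ρ g y) := by
  refine LinearMap.ext fun z => ?_
  rw [Module.End.mul_apply, Module.End.mul_apply, wdg_apply, wdg_apply, map_sub, map_smul,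
    map_smul, form_rep' h g x z, form_rep' h g y z]

/-- the space of pairs, with its properties -/
structure Pkg (q : Matrix n n ℚ_[ℓ]) (χ : GK K →* ℚ_[ℓ]) (ρ : GK K →* Matrix n n ℚ_[ℓ])
    (σ : Representation ℚ_[ℓ] (GK K) W) (P : End ℚ_[ℓ] W)
    (A : (n → ℚ_[ℓ]) →ₗ[ℚ_[ℓ]] (n → ℚ_[ℓ]) →ₗ[ℚ_[ℓ]] End ℚ_[ℓ] W) : Prop where
  idem : P * P = P
  alt : ∀ x, A x x = 0
  left : ∀ x ∈ tate χ ρ, ∀ y, A x y = 0
  unit : ∀ x y, P * A x y = A x y ∧ A x y * P = A x y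
  mul : ∀ x ∈ orth q (tate χ ρ), ∀ y ∈ orth q (tate χ ρ), ∀ z ∈ orth q (tate χ ρ),
    (form q x y • P - (2 : ℚ_[ℓ]) • A x y) * (form q y z • P - (2 : ℚ_[ℓ]) • A y z) =
      form q y y • (form q x z • P - (2 : ℚ_[ℓ]) • A x z)
  sqr : ∀ x ∈ orth q (tate χ ρ), ∀ y ∈ orth q (tate χ ρ), form q x y = 0 →
    (-4 : ℚ_[ℓ]) • (A x y * A x y) = (form q x x * form q y y) • P
  equi : ∀ g x y, σ g * A x y = A (rep χ ρ g x) (rep χ ρ g y) * σ g
  comm : ∀ g, σ g * P = P * σ g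
  lie : ∀ x ∈ orth q (tate χ ρ), ∀ y ∈ orth q (tate χ ρ), ∃ Z ∈ LT ((rep χ ρ).prod σ),
    blk Z = wdg (form q) x y ∧ blk2 Z = A x y

/-- **The Clifford module in a representation of weight one.** -/
theorem kd_main (h : IsK3Type q S χ Pol ρ) (hss : Semisimple ρ) (hc : ScalarEnds q χ ρ)
    (hd3 : 3 ≤ finrank ℚ_[ℓ] (orth q (tate χ ρ)))
    {σ : Representation ℚ_[ℓ] (GK K) W} (hσ : FiniteIndexSemisimple σ) {Δ : Subgroup (GK K)}
    (hΔ : IsOpen (Δ : Set (GK K))) (hw : WeightOne σ Δ ⊤ ⊥) :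
    ∃ (P : End ℚ_[ℓ] W) (A : (n → ℚ_[ℓ]) →ₗ[ℚ_[ℓ]] (n → ℚ_[ℓ]) →ₗ[ℚ_[ℓ]] End ℚ_[ℓ] W),
      Pkg q χ ρ σ P A := by
  obtain ⟨a, U, W', Fr⟩ := exists_frame h hss hc
  have hT : tate χ ρ ≠ ⊤ := by
    intro hT
    have h3 := Submodule.finrank_add_eq_of_isCompl (tate_compl h hss)
    have h4 : finrank ℚ_[ℓ] (tate χ ρ) = finrank ℚ_[ℓ] (n → ℚ_[ℓ]) := by rw [hT, finrank_top]
    omega
  obtain ⟨L, hLT, hLie, hAd, -⟩ := Pool.Agent.Y41.RM.lieL' ℚ_[ℓ] ((n → ℚ_[ℓ]) × W) (GK K)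
    ((rep χ ρ).prod σ)
  have hfss : FiniteIndexSemisimple ((rep χ ρ).prod σ) :=
    prod_semisimple (finiteIndexSemisimple hss) hσ
  obtain ⟨𝔰, hcpl, h𝔰⟩ := exists_cpl' hfss hLT hLie hAd
  have hd : ∀ X ∈ L, ∀ x, X x = (blk X x.1, blk2 X x.2) := fun Z hZ x => lt_diag ((hLT Z).1 hZ) x
  have hmap : L.map blk = lieE χ ρ := by
    refine le_antisymm ?_ ?_
    · rintro _ ⟨Z, hZ, rfl⟩
      exact lieE_of_lt (blk_mem ((hLT Z).1 hZ))
    · intro Y hY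
      obtain ⟨Z, hZ, h1⟩ := lift_all h hss W σ Y hY
      exact ⟨Z, (hLT Z).2 hZ, h1⟩
  have hlin : lin (tateLie χ ρ) = L.map blk := hmap.symm
  obtain ⟨S', j, hw⟩ := hw
  obtain ⟨p, hp, hpS', v₀, hv₀, g, hgΔ, hg, θ, v, v', a1, a2, a3, hop, hwt⟩ :=
    exists_torus h hss hT S' Δ hΔ
  obtain ⟨P, hP, hPW, hPF⟩ := hw p hpS' v₀ hv₀ g hgΔ hg
  obtain ⟨N, hN⟩ := exists_op ((((rep χ ρ).prod σ) g⁻¹).baseChange (PadicAlgCl ℓ))
    (fun z => ext0 θ z)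
  have hNL : N ∈ bcS (PadicAlgCl ℓ) L :=
    Pool.Agent.R913.Adj.op_mem (ρ := (rep χ ρ).prod σ) (PadicAlgCl ℓ) hLT g⁻¹ θ N hN
  have hNb : bC N = wdg (bcB (PadicAlgCl ℓ) (form q)) v' v := hop _ (bC_op hN)
  -- the hyperbolic plane
  have hs := bcB_symm (C := PadicAlgCl ℓ) (form_symm h.symm)
  have hNS : bC N ∈ bcS (PadicAlgCl ℓ) (lin (tateLie χ ρ)) := by
    rw [hlin]
    exact bC_mem hNL
  have hv : v ∈ TC (PadicAlgCl ℓ) (orth q (tate χ ρ)) := by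
    have h1 := TC_range Fr hNS v
    rwa [hNb, wdg_apply, hs v' v, a3, a1, one_smul, zero_smul, sub_zero] at h1
  have hv' : v' ∈ TC (PadicAlgCl ℓ) (orth q (tate χ ρ)) := by
    have h1 := TC_range Fr hNS v'
    rw [hNb, wdg_apply, a3, a2, one_smul, zero_smul, zero_sub] at h1
    have h2 := Submodule.neg_mem _ h1
    rwa [neg_neg] at h2
  obtain ⟨u, u1, u2, u3, -, u5⟩ := exists_ortho hs (TC (PadicAlgCl ℓ) (orth q (tate χ ρ)))
    (TC_nondeg (form_nondeg h.symm h.nondeg) Fr) hv hv' a1 a2 a3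
  have hfr : finrank (PadicAlgCl ℓ) (TC (PadicAlgCl ℓ) (orth q (tate χ ρ))) =
      finrank ℚ_[ℓ] (orth q (tate χ ρ)) := finrank_TC
  let i₀ : Fin (finrank (PadicAlgCl ℓ) (TC (PadicAlgCl ℓ) (orth q (tate χ ρ))) - 2) :=
    ⟨0, by rw [hfr]; omega⟩
  have hPτ : aeval ((p : ℚ_[ℓ]) ^ j • σ g⁻¹) P = 0 := LinearMap.ext fun x =>
    (Submodule.mem_bot _).1 (hPF x trivial)
  have hPC : ∀ α, Module.End.maxGenEigenspace ((σ g⁻¹).baseChange (PadicAlgCl ℓ)) α ≠ ⊥ →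
      aeval ((p : PadicAlgCl ℓ) ^ j * α) P = 0 := by
    intro α hα
    have h1 := aeval_bc (C := PadicAlgCl ℓ) (σ g⁻¹) ((p : ℚ_[ℓ]) ^ j) hPτ
    rw [map_zpow₀, map_natCast] at h1
    exact root_of_gen h1 hα
  have hNσ : ∀ β, ∀ x ∈ Module.End.maxGenEigenspace ((σ g⁻¹).baseChange (PadicAlgCl ℓ)) β,
      bC2 N x = ext0 θ β • x := by
    intro β x hx
    have h1 := rs_op (ι := LinearMap.id) (p := LinearMap.id) (fun x => rfl) hN (τ := σ g⁻¹)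
      (fun x => rfl) β x hx
    rw [← h1]
    change bC2 N x = (LinearMap.id : W →ₗ[ℚ_[ℓ]] W).baseChange (PadicAlgCl ℓ)
      (bC2 N ((LinearMap.id : W →ₗ[ℚ_[ℓ]] W).baseChange (PadicAlgCl ℓ) x))
    rw [LinearMap.baseChange_id]
    rfl
  -- the lifts over the extension field
  obtain ⟨ZC, hZC, f1, f2, f3, f4⟩ := exists_dat (T := (σ g⁻¹).baseChange (PadicAlgCl ℓ))
    (t := fun z => ext0 θ z) hcpl hd hs hv hv' (u1 i₀) a1 a2 a3 (u2 i₀) (u3 i₀) (u5 i₀)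
    (fun x hx y hy => by rw [← hlin]; exact TC_wdg Fr hx hy) hNL hNb hNσ
    (fun α β hα hβ => hwt P j hP hPW α β (hPC α hα) (hPC β hβ))
  have D := mk_dat hs hv hv' (u1 i₀) a1 a2 a3 (u2 i₀) (u3 i₀) (u5 i₀) f1 f2 f3 f4
  -- the lifts over the base field
  have hwd : ∀ x y : orth q (tate χ ρ), ∃ z ∈ 𝔰, blk z = wdg (form q) (x : n → ℚ_[ℓ]) y := by
    intro x y
    have h1 : wdg (form q) (x : n → ℚ_[ℓ]) y ∈ L.map blk := by
      rw [hmap, mem_lieE]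
      exact Frame_wdg Fr x.2 y.2
    obtain ⟨X, hX, h2⟩ := h1
    obtain ⟨Y, hY, hY0, Z, hZ, rfl⟩ := hcpl.split X hX
    exact ⟨Z, hZ, by rw [← h2, map_add, hY0, zero_add]⟩
  have hinj : ∀ z ∈ 𝔰, ∀ z' ∈ 𝔰, blk z = blk z' → z = z' := by
    intro z hz z' hz' he
    rw [← sub_eq_zero]
    exact hcpl.inj _ (𝔰.sub_mem hz hz') (by rw [map_sub, he, sub_self])
  obtain ⟨Zk, hZk⟩ := exists_bil (E := orth q (tate χ ρ)) 𝔰 blk hinj
    (fun x y => wdg (form q) (x : n → ℚ_[ℓ]) y)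
    (fun x x' y => wdg_add_left _ _ _ _) (fun c x y => wdg_smul_left _ _ _)
    (fun x y y' => wdg_add _ _ _ _) (fun c x y => wdg_smul _ _ _ _) hwd
  -- two orthogonal vectors
  let s₀ : Fin (finrank ℚ_[ℓ] (orth q (tate χ ρ))) := ⟨0, by omega⟩
  let s₁ : Fin (finrank ℚ_[ℓ] (orth q (tate χ ρ))) := ⟨1, by omega⟩
  have hs01 : s₀ ≠ s₁ := fun h' => absurd (congrArg Fin.val h') (by norm_num)
  let e : Fin (finrank ℚ_[ℓ] (orth q (tate χ ρ))) → orth q (tate χ ρ) := fun s =>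
    ⟨U *ᵥ Pi.single s 1, Fr.left _⟩
  have hee : ∀ s t, form q (e s : n → ℚ_[ℓ]) (e t) = if s = t then a s else 0 := fun s t =>
    Pool.Agent.H851.MK.Frame_ee Fr s t
  obtain ⟨Pk, p1, p2, p3, p4⟩ := psi_down D
    (fun x : orth q (tate χ ρ) =>
      (⟨1 ⊗ₜ (x : n → ℚ_[ℓ]), tmul_mem_TC x.2 1⟩ : TC (PadicAlgCl ℓ) (orth q (tate χ ρ))))
    (fun x y => form q (x : n → ℚ_[ℓ]) y) (fun x y => blk2 (Zk x y))
    (fun x y => by
      change bcB (PadicAlgCl ℓ) (form q) (1 ⊗ₜ (x : n → ℚ_[ℓ])) (1 ⊗ₜ (y : n → ℚ_[ℓ])) = _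
      rw [bcB_tmul, one_mul, one_mul])
    (fun x y => by
      change bC2 (ZC _ _) = _
      rw [lift_bc hcpl hZk hZC, bC2_bc])
    (e₀ := e s₀) (e₁ := e s₁) (by
      change form q (e s₀ : n → ℚ_[ℓ]) (e s₁) = 0
      rw [hee, if_neg hs01])
    (by
      change form q (e s₀ : n → ℚ_[ℓ]) (e s₀) ≠ 0
      rw [hee, if_pos rfl]
      exact Fr.ne _)
    (by
      change form q (e s₁ : n → ℚ_[ℓ]) (e s₁) ≠ 0
      rw [hee, if_pos rfl]
      exact Fr.ne _)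
  obtain ⟨π, π1, π2, π3⟩ := exists_pi h hss
  let A : (n → ℚ_[ℓ]) →ₗ[ℚ_[ℓ]] (n → ℚ_[ℓ]) →ₗ[ℚ_[ℓ]] End ℚ_[ℓ] W :=
    (Zk.compl₁₂ π π).compr₂ blk2
  have hA : ∀ x y, A x y = blk2 (Zk (π x) (π y)) := fun x y => rfl
  have hAT : ∀ x y : orth q (tate χ ρ), A x y = blk2 (Zk x y) := fun x y => by
    rw [hA, π1, π1]
  have hself : ∀ x, Zk x x = 0 := fun x => hcpl.inj _ (hZk x x).1 (by
    rw [(hZk x x).2, wdg_self])
  -- equivariance
  have hZg : ∀ g x y, AdE (((rep χ ρ).prod σ) g) (((rep χ ρ).prod σ) g⁻¹) (Zk (π x) (π y)) =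
      Zk (π (rep χ ρ g x)) (π (rep χ ρ g y)) := by
    intro g x y
    refine hinj _ (h𝔰 g _ (hZk _ _).1) _ (hZk _ _).1 ?_
    rw [blk_conj, (hZk _ _).2, (hZk _ _).2, π3, π3]
    exact wdg_conj h g _ _
  have hequi : ∀ g x y, σ g * A x y = A (rep χ ρ g x) (rep χ ρ g y) * σ g := by
    intro g x y
    have h1 : blk2 (AdE (((rep χ ρ).prod σ) g) (((rep χ ρ).prod σ) g⁻¹) (Zk (π x) (π y))) =
        σ g * (A x y * σ g⁻¹) := by
      refine LinearMap.ext fun w => ?_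
      rw [AdE_apply]
      change (((rep χ ρ).prod σ) g (Zk (π x) (π y) (((rep χ ρ).prod σ) g⁻¹ (0, w)))).2 =
        σ g (A x y (σ g⁻¹ w))
      have e1 : ((rep χ ρ).prod σ) g⁻¹ (0, w) = (0, σ g⁻¹ w) := by rw [prod_apply, map_zero]
      rw [e1, hd _ (hcpl.le (hZk _ _).1), prod_apply]
      rfl
    rw [hZg] at h1
    rw [hA (rep χ ρ g x), h1, mul_assoc, mul_assoc, ← map_mul, inv_mul_cancel, map_one, mul_one]
  have hsqr : ∀ x ∈ orth q (tate χ ρ), ∀ y ∈ orth q (tate χ ρ), form q x y = 0 →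
      (-4 : ℚ_[ℓ]) • (A x y * A x y) = (form q x x * form q y y) • Pk := by
    intro x hx y hy hxy
    have h1 := p3 ⟨x, hx⟩ ⟨y, hy⟩ hxy
    simp only [← hAT] at h1
    exact h1
  have hcomm : ∀ g, σ g * Pk = Pk * σ g := by
    intro g
    have h01 : form q (e s₀ : n → ℚ_[ℓ]) (e s₁) = 0 := by rw [hee, if_neg hs01]
    have e1 := hsqr _ (e s₀).2 _ (e s₁).2 h01
    have e2 := hsqr _ (orth_rep h g (e s₀).2) _ (orth_rep h g (e s₁).2) (by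
      rw [form_rep h, h01])
    rw [form_rep h, form_rep h] at e2
    have e3 : form q (e s₀ : n → ℚ_[ℓ]) (e s₀) * form q (e s₁ : n → ℚ_[ℓ]) (e s₁) ≠ 0 := by
      rw [hee, hee, if_pos rfl, if_pos rfl]
      exact mul_ne_zero (Fr.ne _) (Fr.ne _)
    have e4 : σ g * (A (e s₀) (e s₁) * A (e s₀) (e s₁)) =
        A (rep χ ρ g (e s₀)) (rep χ ρ g (e s₁)) * A (rep χ ρ g (e s₀)) (rep χ ρ g (e s₁)) *
          σ g := by
      rw [← mul_assoc, hequi, mul_assoc, hequi, ← mul_assoc]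
    have e5 := congrArg (fun z => σ g * z) e1
    have e6 := congrArg (fun z => z * σ g) e2
    change σ g * ((-4 : ℚ_[ℓ]) • (A (e s₀) (e s₁) * A (e s₀) (e s₁))) =
      σ g * ((form q (e s₀ : n → ℚ_[ℓ]) (e s₀) * form q (e s₁ : n → ℚ_[ℓ]) (e s₁)) • Pk) at e5
    change ((-4 : ℚ_[ℓ]) • (A (rep χ ρ g (e s₀)) (rep χ ρ g (e s₁)) *
      A (rep χ ρ g (e s₀)) (rep χ ρ g (e s₁)))) * σ g =
      ((form q (e s₀ : n → ℚ_[ℓ]) (e s₀) * form q (e s₁ : n → ℚ_[ℓ]) (e s₁)) • Pk) * σ g at e6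
    rw [mul_smul_comm, mul_smul_comm, e4] at e5
    rw [smul_mul_assoc, smul_mul_assoc] at e6
    have e7 := e5.symm.trans e6
    exact smul_right_injective _ e3 e7
  refine ⟨Pk, A, p1, fun x => ?_, fun x hx y => ?_, fun x y => p2 _ _, fun x hx y hy z hz => ?_,
    fun x hx y hy hxy => ?_, hequi, hcomm, fun x hx y hy => ?_⟩
  · rw [hA, hself, map_zero]
  · rw [hA, π2 x hx, map_zero, LinearMap.zero_apply, map_zero]
  · have h1 := p4 ⟨x, hx⟩ ⟨y, hy⟩ ⟨z, hz⟩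
    simp only [← hAT] at h1
    exact h1
  · exact hsqr x hx y hy hxy
  · refine ⟨Zk ⟨x, hx⟩ ⟨y, hy⟩, (hLT _).1 (hcpl.le (hZk _ _).1), (hZk _ _).2, ?_⟩
    rw [← hAT]

end Pool.Agent.H851.KD
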