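import Mathlib
import Pool.Agent.H851.KD.Main

/-!
# The criterion for independence, and the dimension of the Clifford module
-/

set_option autoImplicit false
set_option linter.unusedSectionVars false
set_option linter.unusedVariables false

namespace Pool.Agent.H851.KD

open Module TensorProduct Pool.Agent.Y114.RM Pool.Agent.TH118.SG Polynomial Matrix Topology
open NumberField IsDedekindDomain
open Pool.Agent.H851.K3 Pool.Agent.H851.KT Pool.Agent.H851.TT Pool.Agent.H851.ZD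
open Pool.Agent.H851.IN Pool.Agent.H851.KS
open Pool.Agent.NH56.HY (GK IsFrobenius tw tw_apply R chi_ne Near NonUnip)
open Pool.Agent.H204R3.GP (FiniteIndexSemisimple)

section dvd

variable {k : Type} [Field k] [CharZero k] {W : Type} [AddCommGroup W] [Module k W]
  [FiniteDimensional k W]

/-- anticommuting operators on the image of a projection -/
theorem dvd_range {m : ℕ} {P : End k W} (hP : P * P = P) (G : Fin m → End k W) (c : Fin m → k)
    (hc : ∀ i, c i ≠ 0) (h1 : ∀ i, P * G i = G i) (h2 : ∀ i, G i * G i = c i • P)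
    (h3 : ∀ i j, i ≠ j → G i * G j = -(G j * G i)) :
    2 ^ (m / 2) ∣ finrank k (LinearMap.range P) := by
  have hm : ∀ i, ∀ x ∈ LinearMap.range P, G i x ∈ LinearMap.range P := fun i x _ =>
    ⟨G i x, LinearMap.congr_fun (h1 i) x⟩
  let g : Fin m → End k (LinearMap.range P) := fun i => (G i).restrict (hm i)
  have hg : ∀ i (x : LinearMap.range P), ((g i x : LinearMap.range P) : W) = G i x :=
    fun i x => rfl
  have hPx : ∀ x : LinearMap.range P, P x = x := by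
    rintro ⟨_, y, rfl⟩
    exact LinearMap.congr_fun hP y
  have e2 : ∀ i, g i * g i = c i • 1 := fun i => LinearMap.ext fun x => Subtype.ext (by
    have h := LinearMap.congr_fun (h2 i) (x : W)
    rw [Module.End.mul_apply, LinearMap.smul_apply, hPx] at h
    exact h)
  have e3 : ∀ i j, i ≠ j → g i * g j = -(g j * g i) := fun i j hij =>
    LinearMap.ext fun x => Subtype.ext (LinearMap.congr_fun (h3 i j hij) (x : W))
  have key := cliff_dvd m (C := AlgebraicClosure k)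
    (D := AlgebraicClosure k ⊗[k] (LinearMap.range P))
    (fun i => (g i).baseChange (AlgebraicClosure k))
    (fun i => algebraMap k (AlgebraicClosure k) (c i))
    (fun i => by
      rw [Ne, map_eq_zero]
      exact hc i)
    (fun i => by
      rw [← bc_mul, e2, bc_smul]
      congr 1
      exact LinearMap.baseChange_id)
    (fun i j hij => by
      rw [← bc_mul, e3 i j hij, LinearMap.baseChange_neg, ← bc_mul])
  rwa [Module.finrank_baseChange] at key

end dvd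

section ten

variable {k : Type} [Field k] {V W : Type} [AddCommGroup V] [Module k V] [AddCommGroup W]
  [Module k W]

/-- a bilinear map with values in the endomorphisms of `W`, as a tensor on `V ⊕ W` -/
def ten4 (β : V →ₗ[k] V →ₗ[k] End k W) : Tensor k (V × W) 4 where
  toFun v := (v 3).2 (LinearMap.inr k V W (β (v 0).1.1 (v 1).1.1 (v 2).1.2))
  map_update_add' := by
    intro inst v i x y
    obtain rfl : inst = instDecidableEqFin 4 := Subsingleton.elim _ _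
    match i with
    | 0 =>
      change (v 3).2 (LinearMap.inr k V W (β (x.1.1 + y.1.1) (v 1).1.1 (v 2).1.2)) =
        (v 3).2 (LinearMap.inr k V W (β x.1.1 (v 1).1.1 (v 2).1.2)) +
        (v 3).2 (LinearMap.inr k V W (β y.1.1 (v 1).1.1 (v 2).1.2))
      rw [map_add, LinearMap.add_apply, LinearMap.add_apply, map_add, map_add]
    | 1 =>
      change (v 3).2 (LinearMap.inr k V W (β (v 0).1.1 (x.1.1 + y.1.1) (v 2).1.2)) =
        (v 3).2 (LinearMap.inr k V W (β (v 0).1.1 x.1.1 (v 2).1.2)) +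
        (v 3).2 (LinearMap.inr k V W (β (v 0).1.1 y.1.1 (v 2).1.2))
      rw [map_add, LinearMap.add_apply, map_add, map_add]
    | 2 =>
      change (v 3).2 (LinearMap.inr k V W (β (v 0).1.1 (v 1).1.1 (x.1.2 + y.1.2))) =
        (v 3).2 (LinearMap.inr k V W (β (v 0).1.1 (v 1).1.1 x.1.2)) +
        (v 3).2 (LinearMap.inr k V W (β (v 0).1.1 (v 1).1.1 y.1.2))
      rw [map_add, map_add, map_add]
    | 3 => rfl
  map_update_smul' := by
    intro inst v i c x
    obtain rfl : inst = instDecidableEqFin 4 := Subsingleton.elim _ _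
    match i with
    | 0 =>
      change (v 3).2 (LinearMap.inr k V W (β (c • x.1.1) (v 1).1.1 (v 2).1.2)) =
        c • (v 3).2 (LinearMap.inr k V W (β x.1.1 (v 1).1.1 (v 2).1.2))
      rw [map_smul, LinearMap.smul_apply, LinearMap.smul_apply, map_smul, map_smul]
    | 1 =>
      change (v 3).2 (LinearMap.inr k V W (β (v 0).1.1 (c • x.1.1) (v 2).1.2)) =
        c • (v 3).2 (LinearMap.inr k V W (β (v 0).1.1 x.1.1 (v 2).1.2))
      rw [map_smul, LinearMap.smul_apply, map_smul, map_smul]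
    | 2 =>
      change (v 3).2 (LinearMap.inr k V W (β (v 0).1.1 (v 1).1.1 (c • x.1.2))) =
        c • (v 3).2 (LinearMap.inr k V W (β (v 0).1.1 (v 1).1.1 x.1.2))
      rw [map_smul, map_smul, map_smul]
    | 3 => rfl

theorem ten4_apply (β : V →ₗ[k] V →ₗ[k] End k W)
    (v : Fin 4 → (V × W) × Dual k (V × W)) :
    ten4 β v = (v 3).2 (LinearMap.inr k V W (β (v 0).1.1 (v 1).1.1 (v 2).1.2)) := rfl

variable {Γ : Type} [Group Γ] {r : Representation k Γ V} {σ : Representation k Γ W}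

/-- elements `(X, 0)` of the Lie algebra kill the equivariant bilinear maps -/
theorem kill_beta {β : V →ₗ[k] V →ₗ[k] End k W} {Δ : Subgroup Γ} (hΔ : Δ.FiniteIndex)
    (hβ : ∀ g ∈ Δ, ∀ x y, σ g * β x y = β (r g x) (r g y) * σ g) {X : End k V}
    (hX : ext1 X ∈ LT (r.prod σ)) (x y : V) : β (X x) y + β x (X y) = 0 := by
  have hT : TateTensor (r.prod σ) (ten4 β) := by
    refine ⟨Δ, hΔ, fun g hg v => ?_⟩
    rw [ten4_apply, ten4_apply]
    change (v 3).2 ((r.prod σ) g⁻¹ (0, β (r g (v 0).1.1) (r g (v 1).1.1) (σ g (v 2).1.2))) =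
      (v 3).2 (0, β (v 0).1.1 (v 1).1.1 (v 2).1.2)
    have h1 := LinearMap.congr_fun (hβ g hg (v 0).1.1 (v 1).1.1) (v 2).1.2
    rw [Module.End.mul_apply, Module.End.mul_apply] at h1
    rw [prod_apply, map_zero, ← h1, ← Module.End.mul_apply (σ g⁻¹), ← map_mul, inv_mul_cancel,
      map_one, Module.End.one_apply]
  have h1 := hX.2 _ _ hT
  refine LinearMap.ext fun w => ?_
  rw [← sub_eq_zero, LinearMap.zero_apply, sub_zero, ← Module.forall_dual_apply_eq_zero_iff k]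
  intro ξ
  have h2 := h1 ![((x, 0), 0), ((y, 0), 0), ((0, w), 0), (0, ξ ∘ₗ LinearMap.snd k V W)]
  rw [Fin.sum_univ_four] at h2
  have g0 : ten4 β (Function.update ![((x, 0), 0), ((y, 0), 0), ((0, w), 0),
      (0, ξ ∘ₗ LinearMap.snd k V W)] 0 (lie (ext1 X) ((x, 0), 0))) = ξ (β (X x) y w) := rfl
  have g1 : ten4 β (Function.update ![((x, 0), 0), ((y, 0), 0), ((0, w), 0),
      (0, ξ ∘ₗ LinearMap.snd k V W)] 1 (lie (ext1 X) ((y, 0), 0))) = ξ (β x (X y) w) := rfl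
  have g2 : ten4 β (Function.update ![((x, 0), 0), ((y, 0), 0), ((0, w), 0),
      (0, ξ ∘ₗ LinearMap.snd k V W)] 2 (lie (ext1 X) ((0, w), 0))) = 0 := by
    change ξ (β x y 0) = 0
    rw [map_zero, map_zero]
  have g3 : ten4 β (Function.update ![((x, 0), 0), ((y, 0), 0), ((0, w), 0),
      (0, ξ ∘ₗ LinearMap.snd k V W)] 3 (lie (ext1 X) (0, ξ ∘ₗ LinearMap.snd k V W))) = 0 := by
    change -ξ 0 = 0
    rw [map_zero, neg_zero]
  change ten4 β (Function.update _ 0 (lie (ext1 X) ((x, 0), 0))) +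
    ten4 β (Function.update _ 1 (lie (ext1 X) ((y, 0), 0))) +
    ten4 β (Function.update _ 2 (lie (ext1 X) ((0, w), 0))) +
    ten4 β (Function.update _ 3 (lie (ext1 X) (0, ξ ∘ₗ LinearMap.snd k V W))) = 0 at h2
  rw [g0, g1, g2, g3, add_zero, add_zero] at h2
  rw [LinearMap.add_apply, map_add]
  exact h2

end ten

section crit

variable {K : Type} [Field K] [NumberField K] {ℓ : ℕ} [hℓ : Fact ℓ.Prime] {n : Type}
    [Fintype n] [DecidableEq n] {q : Matrix n n ℚ_[ℓ]} {S : Finset ℕ} {χ : GK K →* ℚ_[ℓ]}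
    {Pol : HeightOneSpectrum (𝓞 K) → ℤ[X]} {ρ : GK K →* Matrix n n ℚ_[ℓ]}
    {W : Type} [AddCommGroup W] [Module ℚ_[ℓ] W] [FiniteDimensional ℚ_[ℓ] W]
    {σ : Representation ℚ_[ℓ] (GK K) W} {P : End ℚ_[ℓ] W}
    {A : (n → ℚ_[ℓ]) →ₗ[ℚ_[ℓ]] (n → ℚ_[ℓ]) →ₗ[ℚ_[ℓ]] End ℚ_[ℓ] W}
    {a : Fin (finrank ℚ_[ℓ] (orth q (tate χ ρ))) → ℚ_[ℓ]}
    {U : Matrix n (Fin (finrank ℚ_[ℓ] (orth q (tate χ ρ)))) ℚ_[ℓ]}
    {W' : Matrix (Fin (finrank ℚ_[ℓ] (orth q (tate χ ρ)))) n ℚ_[ℓ]}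

/-- the vectors of the frame -/
noncomputable def ev (U : Matrix n (Fin (finrank ℚ_[ℓ] (orth q (tate χ ρ)))) ℚ_[ℓ])
    (s : Fin (finrank ℚ_[ℓ] (orth q (tate χ ρ)))) : n → ℚ_[ℓ] := U *ᵥ Pi.single s 1

theorem ev_mem (Fr : Frame q (tateLie χ ρ) (orth q (tate χ ρ)) a U W')
    (s : Fin (finrank ℚ_[ℓ] (orth q (tate χ ρ)))) : ev U s ∈ orth q (tate χ ρ) := Fr.left _

theorem ev_ne (Fr : Frame q (tateLie χ ρ) (orth q (tate χ ρ)) a U W')
    {s t : Fin (finrank ℚ_[ℓ] (orth q (tate χ ρ)))} (h : s ≠ t) :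
    form q (ev U s) (ev U t) = 0 := by
  rw [ev, ev, Pool.Agent.H851.MK.Frame_ee Fr, if_neg h]

theorem ev_self (Fr : Frame q (tateLie χ ρ) (orth q (tate χ ρ)) a U W')
    (s : Fin (finrank ℚ_[ℓ] (orth q (tate χ ρ)))) : form q (ev U s) (ev U s) = a s := by
  rw [ev, Pool.Agent.H851.MK.Frame_ee Fr, if_pos rfl]

theorem ev_sum (Fr : Frame q (tateLie χ ρ) (orth q (tate χ ρ)) a U W') {x : n → ℚ_[ℓ]}
    (hx : x ∈ orth q (tate χ ρ)) : x = ∑ s, (W' *ᵥ x) s • ev U s := by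
  conv_lhs => rw [← Fr.right x hx, pi_eq_sum_univ' (W' *ᵥ x), Matrix.mulVec_sum]
  refine Finset.sum_congr rfl fun s _ => ?_
  rw [Matrix.mulVec_smul]
  rfl

theorem exists_two (hd3 : 3 ≤ finrank ℚ_[ℓ] (orth q (tate χ ρ))) :
    ∃ s t : Fin (finrank ℚ_[ℓ] (orth q (tate χ ρ))), s ≠ t :=
  ⟨⟨0, by omega⟩, ⟨1, by omega⟩, fun h => absurd (congrArg Fin.val h) (by norm_num)⟩

/-- the Lie algebra is spanned by the elementary skew endomorphisms -/
theorem lieE_span (h : IsK3Type q S χ Pol ρ)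
    (Fr : Frame q (tateLie χ ρ) (orth q (tate χ ρ)) a U W')
    {I : Submodule ℚ_[ℓ] (End ℚ_[ℓ] (n → ℚ_[ℓ]))}
    (hI : ∀ x ∈ orth q (tate χ ρ), ∀ y ∈ orth q (tate χ ρ), wdg (form q) x y ∈ I) :
    lieE χ ρ ≤ I := by
  rintro _ ⟨X, hX, rfl⟩
  change Matrix.toLin' X ∈ I
  obtain ⟨M, hM, rfl⟩ := (Fr.mem X).1 hX
  have hsk : ∀ x y, form q ((U * M * W') *ᵥ x) y = -form q x ((U * M * W') *ᵥ y) := by
    intro x y
    have h1 : Matrix.toLin' (U * M * W') ∈ lieE χ ρ := lin_mem_lieE hX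
    have h2 : Skew (form q) (Matrix.toLin' (U * M * W')) := by
      refine skew_of_tate h fun m φ hφ => ?_
      exact hX m φ hφ
    exact h2 x y
  have hXT : ∀ x, (U * M * W') *ᵥ x ∈ orth q (tate χ ρ) := by
    intro x
    rw [Matrix.mul_assoc, ← Matrix.mulVec_mulVec]
    exact Fr.left _
  have hproj : ∀ x, ∑ s, ((a s)⁻¹ * form q (ev U s) x) • ev U s = U *ᵥ (W' *ᵥ x) := by
    intro x
    conv_rhs => rw [pi_eq_sum_univ' (W' *ᵥ x), Matrix.mulVec_sum]
    refine Finset.sum_congr rfl fun s _ => ?_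
    rw [Matrix.mulVec_smul, Fr.pair]
    rfl
  have key : Matrix.toLin' (U * M * W') = (2⁻¹ : ℚ_[ℓ]) •
      ∑ s, (a s)⁻¹ • wdg (form q) (ev U s) ((U * M * W') *ᵥ ev U s) := by
    refine LinearMap.ext fun x => ?_
    rw [toLin'_apply, LinearMap.smul_apply, LinearMap.sum_apply]
    have e1 : ∑ s, ((a s)⁻¹ • wdg (form q) (ev U s) ((U * M * W') *ᵥ ev U s)) x =
        (U * M * W') *ᵥ (∑ s, ((a s)⁻¹ * form q (ev U s) x) • ev U s) +
        ∑ s, ((a s)⁻¹ * form q (ev U s) ((U * M * W') *ᵥ x)) • ev U s := by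
      rw [Matrix.mulVec_sum, ← Finset.sum_add_distrib]
      refine Finset.sum_congr rfl fun s _ => ?_
      rw [LinearMap.smul_apply, wdg_apply, hsk, Matrix.mulVec_smul]
      module
    rw [e1, hproj, hproj]
    have e2 : (U * M * W') *ᵥ (U *ᵥ (W' *ᵥ x)) = (U * M * W') *ᵥ x := by
      rw [Matrix.mulVec_mulVec, Matrix.mulVec_mulVec]
      congr 1
      rw [Matrix.mul_assoc (U * M) W' U, Fr.one, Matrix.mul_one]
    rw [e2, Fr.right _ (hXT x)]
    module
  rw [key]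
  exact Submodule.smul_mem _ _ (Submodule.sum_mem _ fun s _ => Submodule.smul_mem _ _
    (hI _ (ev_mem Fr s) _ (hXT _)))

/-- **No Clifford module: independence.** -/
theorem ext_of_zero (h : IsK3Type q S χ Pol ρ)
    (Fr : Frame q (tateLie χ ρ) (orth q (tate χ ρ)) a U W')
    (p : Pkg q χ ρ σ P A) (hP : P = 0) {X : End ℚ_[ℓ] (n → ℚ_[ℓ])} (hX : X ∈ lieE χ ρ) :
    ext1 X ∈ LT ((rep χ ρ).prod σ) := by
  obtain ⟨L, hLT, hLie, hAd, -⟩ := Pool.Agent.Y41.RM.lieL' ℚ_[ℓ] ((n → ℚ_[ℓ]) × W) (GK K)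
    ((rep χ ρ).prod σ)
  let I : Submodule ℚ_[ℓ] (End ℚ_[ℓ] (n → ℚ_[ℓ])) :=
    { carrier := {X | ext1 X ∈ L}
      zero_mem' := by
        have h1 : (ext1 0 : End ℚ_[ℓ] ((n → ℚ_[ℓ]) × W)) = 0 := rfl
        change ext1 0 ∈ L
        rw [h1]
        exact L.zero_mem
      add_mem' := fun {X Y} hX hY => by
        have h1 : (ext1 (X + Y) : End ℚ_[ℓ] ((n → ℚ_[ℓ]) × W)) = ext1 X + ext1 Y :=
          LinearMap.ext fun z => Prod.ext rfl (add_zero (0 : W)).symm
        change ext1 (X + Y) ∈ L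
        rw [h1]
        exact L.add_mem hX hY
      smul_mem' := fun c X hX => by
        have h1 : (ext1 (c • X) : End ℚ_[ℓ] ((n → ℚ_[ℓ]) × W)) = c • ext1 X :=
          LinearMap.ext fun z => Prod.ext rfl (smul_zero c).symm
        change ext1 (c • X) ∈ L
        rw [h1]
        exact L.smul_mem c hX }
  have hw : ∀ x ∈ orth q (tate χ ρ), ∀ y ∈ orth q (tate χ ρ), wdg (form q) x y ∈ I := by
    intro x hx y hy
    obtain ⟨Z, hZ, h1, h2⟩ := p.lie x hx y hy
    have h3 : A x y = 0 := by rw [← (p.unit x y).1, hP, zero_mul]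
    have h4 : (ext1 (wdg (form q) x y) : End ℚ_[ℓ] ((n → ℚ_[ℓ]) × W)) = Z := by
      refine LinearMap.ext fun z => ?_
      rw [ext1_apply, lt_diag hZ z, h1, h2, h3]
      rfl
    change ext1 (wdg (form q) x y) ∈ L
    rw [h4]
    exact (hLT _).2 hZ
  exact (hLT _).1 (lieE_span h Fr hw hX)

/-- **Independence: the equivariant bilinear maps are symmetric.** -/
theorem symm_of_ext (h : IsK3Type q S χ Pol ρ)
    (Fr : Frame q (tateLie χ ρ) (orth q (tate χ ρ)) a U W')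
    (hd3 : 3 ≤ finrank ℚ_[ℓ] (orth q (tate χ ρ)))
    (hX : ∀ X ∈ lieE χ ρ, ext1 X ∈ LT ((rep χ ρ).prod σ))
    {β : (n → ℚ_[ℓ]) →ₗ[ℚ_[ℓ]] (n → ℚ_[ℓ]) →ₗ[ℚ_[ℓ]] End ℚ_[ℓ] W} {Δ : Subgroup (GK K)}
    (hΔ : Δ.FiniteIndex)
    (hβ : ∀ g ∈ Δ, ∀ x y, σ g * β x y = β (rep χ ρ g x) (rep χ ρ g y) * σ g)
    {x y : n → ℚ_[ℓ]} (hx : x ∈ orth q (tate χ ρ)) (hy : y ∈ orth q (tate χ ρ)) :
    β x y = β y x := by
  have key : ∀ s t, s ≠ t → β (ev U s) (ev U t) = 0 := by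
    intro s t hst
    obtain ⟨i, his, hit⟩ : ∃ i, i ≠ s ∧ i ≠ t := by
      have h1 : 2 < Fintype.card (Fin (finrank ℚ_[ℓ] (orth q (tate χ ρ)))) := by
        rw [Fintype.card_fin]
        omega
      obtain ⟨i, hi⟩ := Finset.exists_mem_notMem_of_card_lt_card
        (s := {s, t}) (t := Finset.univ) (lt_of_le_of_lt Finset.card_le_two h1)
      exact ⟨i, fun h2 => hi.2 (by rw [h2]; simp), fun h2 => hi.2 (by rw [h2]; simp)⟩
    have h1 : wdg (form q) (ev U i) (ev U s) ∈ lieE χ ρ := by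
      rw [mem_lieE]
      exact Frame_wdg Fr (ev_mem Fr i) (ev_mem Fr s)
    have h2 := kill_beta hΔ hβ (hX _ h1) (ev U i) (ev U t)
    rw [wdg_apply, wdg_apply, ev_self Fr, form_symm h.symm (ev U s) (ev U i), ev_ne Fr his,
      ev_ne Fr hit, ev_ne Fr hst] at h2
    simp only [zero_smul, sub_zero, map_zero, add_zero, map_smul, LinearMap.smul_apply] at h2
    exact (smul_eq_zero.1 h2).resolve_left (Fr.ne i)
  have hsum : ∀ x y, β (∑ s, (W' *ᵥ x) s • ev U s) (∑ s, (W' *ᵥ y) s • ev U s) =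
      ∑ s, ((W' *ᵥ x) s * (W' *ᵥ y) s) • β (ev U s) (ev U s) := by
    intro x y
    rw [map_sum β, LinearMap.sum_apply]
    refine Finset.sum_congr rfl fun s _ => ?_
    rw [map_smul, LinearMap.smul_apply, map_sum, Finset.sum_eq_single s, map_smul, smul_smul]
    · intro t _ hts
      rw [map_smul, key s t (Ne.symm hts), smul_zero]
    · intro h1
      exact absurd (Finset.mem_univ s) h1
  rw [ev_sum Fr hx, ev_sum Fr hy, hsum, hsum]
  exact Finset.sum_congr rfl fun s _ => by rw [mul_comm]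

/-- **Symmetric maps: no Clifford module.** -/
theorem zero_of_symm (Fr : Frame q (tateLie χ ρ) (orth q (tate χ ρ)) a U W')
    (hd3 : 3 ≤ finrank ℚ_[ℓ] (orth q (tate χ ρ))) (p : Pkg q χ ρ σ P A)
    (hA : ∀ x ∈ orth q (tate χ ρ), ∀ y ∈ orth q (tate χ ρ), A x y = A y x) : P = 0 := by
  obtain ⟨s, t, hst⟩ := exists_two hd3
  have h1 : A (ev U s) (ev U t) = 0 := by
    have h2 := p.alt (ev U s + ev U t)
    rw [map_add, map_add, LinearMap.add_apply, LinearMap.add_apply, p.alt, p.alt, zero_add,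
      add_zero, hA _ (ev_mem Fr t) _ (ev_mem Fr s), ← two_smul ℚ_[ℓ]] at h2
    exact (smul_eq_zero.1 h2).resolve_left two_ne_zero
  have h2 := p.sqr _ (ev_mem Fr s) _ (ev_mem Fr t) (ev_ne Fr hst)
  rw [h1, mul_zero, smul_zero, ev_self Fr, ev_self Fr] at h2
  exact (smul_eq_zero.1 h2.symm).resolve_left (mul_ne_zero (Fr.ne s) (Fr.ne t))

/-- **The dimension of the Clifford module.** -/
theorem kd_dvd (Fr : Frame q (tateLie χ ρ) (orth q (tate χ ρ)) a U W')
    (h : IsK3Type q S χ Pol ρ)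
    (hd3 : 3 ≤ finrank ℚ_[ℓ] (orth q (tate χ ρ))) (p : Pkg q χ ρ σ P A) :
    2 ^ ((finrank ℚ_[ℓ] (orth q (tate χ ρ)) - 1) / 2) ∣ finrank ℚ_[ℓ] (LinearMap.range P) := by
  let s₀ : Fin (finrank ℚ_[ℓ] (orth q (tate χ ρ))) := ⟨0, by omega⟩
  let f : Fin (finrank ℚ_[ℓ] (orth q (tate χ ρ)) - 1) → Fin (finrank ℚ_[ℓ] (orth q (tate χ ρ))) :=
    fun i => ⟨i + 1, by omega⟩
  have hf0 : ∀ i, f i ≠ s₀ := fun i hi => absurd (congrArg Fin.val hi) (Nat.succ_ne_zero _)
  have hfi : ∀ i j, i ≠ j → f i ≠ f j := fun i j hij hi => hij (Fin.ext (by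
    have h1 := congrArg Fin.val hi
    change (i : ℕ) + 1 = j + 1 at h1
    omega))
  have hsw : ∀ x y, A x y = -A y x := by
    intro x y
    have h2 := p.alt (x + y)
    rw [map_add, map_add, LinearMap.add_apply, LinearMap.add_apply, p.alt, p.alt, zero_add,
      add_zero] at h2
    rw [add_comm] at h2
    exact eq_neg_of_add_eq_zero_left h2
  have hprod : ∀ i j, A (ev U (f i)) (ev U s₀) * A (ev U (f j)) (ev U s₀) =
      (4⁻¹ : ℚ_[ℓ]) • a s₀ • (form q (ev U (f i)) (ev U (f j)) • (-1 : ℚ_[ℓ]) • P +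
        (2 : ℚ_[ℓ]) • A (ev U (f i)) (ev U (f j))) := by
    intro i j
    have h1 := p.mul _ (ev_mem Fr (f i)) _ (ev_mem Fr s₀) _ (ev_mem Fr (f j))
    rw [ev_ne Fr (hf0 i), ev_ne Fr (hf0 j).symm, zero_smul, zero_sub, zero_sub, ev_self Fr,
      hsw (ev U s₀) (ev U (f j))] at h1
    have h2 : -((2 : ℚ_[ℓ]) • A (ev U (f i)) (ev U s₀)) *
        -((2 : ℚ_[ℓ]) • -A (ev U (f j)) (ev U s₀)) =
        (-4 : ℚ_[ℓ]) • (A (ev U (f i)) (ev U s₀) * A (ev U (f j)) (ev U s₀)) := by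
      simp only [neg_mul, mul_neg, smul_neg, smul_mul_assoc, mul_smul_comm]
      module
    rw [h2] at h1
    have h3 : A (ev U (f i)) (ev U s₀) * A (ev U (f j)) (ev U s₀) = (-4⁻¹ : ℚ_[ℓ]) •
        (-4 : ℚ_[ℓ]) • (A (ev U (f i)) (ev U s₀) * A (ev U (f j)) (ev U s₀)) := by
      rw [smul_smul]
      norm_num
    rw [h3, h1]
    module
  refine dvd_range p.idem (fun i => A (ev U (f i)) (ev U s₀)) (fun i => -(4⁻¹ * a s₀ * a (f i)))
    (fun i => ?_) (fun i => (p.unit _ _).1) (fun i => ?_) (fun i j hij => ?_)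
  · exact neg_ne_zero.2 (mul_ne_zero (mul_ne_zero (by norm_num) (Fr.ne _)) (Fr.ne _))
  · rw [hprod, ev_self Fr, p.alt]
    module
  · rw [hprod, hprod, ev_ne Fr (hfi i j hij), ev_ne Fr (hfi j i (Ne.symm hij)),
      hsw (ev U (f j)) (ev U (f i))]
    module

end crit

end Pool.Agent.H851.KD
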