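import Mathlib
import Pool.Agent.H851.KS.Pub
import Pool.Agent.H851.KD.Crit

/-!
# The definitions used in the statement
-/

set_option autoImplicit false
set_option linter.unusedSectionVars false
set_option linter.unusedVariables false

namespace Pool.Agent.H851.KD

open Matrix Finset Function Module Pool.Agent.Y114.RM
open NumberField IsDedekindDomain Polynomial
open Pool.Agent.H851.K3 Pool.Agent.H851.KT Pool.Agent.H851.TT Pool.Agent.H851.ZD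
open Pool.Agent.H851.IN Pool.Agent.H851.KS
open Pool.Agent.NH56.HY (GK IsFrobenius tw tw_apply chi_ne)
open Pool.Agent.H204R3.GP (FiniteIndexSemisimple)

variable {K : Type} [Field K] [NumberField K] {ℓ : ℕ} [hℓ : Fact ℓ.Prime] {n : Type}
    [Fintype n] [DecidableEq n] {q : Matrix n n ℚ_[ℓ]} {S : Finset ℕ} {χ : GK K →* ℚ_[ℓ]}
    {Pol : HeightOneSpectrum (𝓞 K) → ℤ[X]} {ρ : GK K →* Matrix n n ℚ_[ℓ]} {m : Type} [Fintype m]
    [DecidableEq m]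

/-- `σ` is, over an open subgroup `Δ` of the Galois group, a Tate twist of a representation of weight one: at
almost all places of degree one, with the residue characteristic `p`, whose Frobenius element is in `Δ`, the
product of `p ^ j` and the geometric Frobenius element is a zero of a monic polynomial with integral coefficients
all whose complex roots have the absolute value `√p`. For example `W = H^1(A)` for an abelian variety `A`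
over `K`, or a direct summand of it over a finite extension of `K`. -/
def WeightOneRep (σ : GK K →* Matrix m m ℚ_[ℓ]) : Prop :=
  ∃ (Δ : Subgroup (GK K)) (S' : Finset ℕ) (j : ℤ), IsOpen (Δ : Set (GK K)) ∧
    ∀ (p : ℕ) [Fact p.Prime], p ∉ S' → ∀ v : HeightOneSpectrum (𝓞 K),
      Ideal.absNorm v.asIdeal = p → ∀ g ∈ Δ, IsFrobenius v g → ∃ P : ℤ[X], P.Monic ∧
        (∀ z : ℂ, aeval z P = 0 → ‖z‖ ^ 2 = p) ∧
        (aeval ((p : ℚ_[ℓ]) ^ j • σ g⁻¹) P : Matrix m m ℚ_[ℓ]) = 0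

/-- `β` is bilinear -/
def Bilinear (β : (n → ℚ_[ℓ]) → (n → ℚ_[ℓ]) → Matrix m m ℚ_[ℓ]) : Prop :=
  ∃ f : (n → ℚ_[ℓ]) →ₗ[ℚ_[ℓ]] (n → ℚ_[ℓ]) →ₗ[ℚ_[ℓ]] Matrix m m ℚ_[ℓ], ∀ x y, β x y = f x y

/-- The operators `ψ x y` on the image `P W` of the projection `P`, which stand for the products `x y` of vectors
`x`, `y` of `T` in the Clifford algebra of `(T, q)`, satisfy the relations `x x = q(x)` and `(x y) (y z) = q(y) (x z)`
of the even Clifford algebra: `P W` is a module of `C⁺(T)`. -/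
structure IsClifford (q : Matrix n n ℚ_[ℓ]) (T : Submodule ℚ_[ℓ] (n → ℚ_[ℓ]))
    (P : Matrix m m ℚ_[ℓ]) (ψ : (n → ℚ_[ℓ]) → (n → ℚ_[ℓ]) → Matrix m m ℚ_[ℓ]) : Prop where
  bilin : Bilinear ψ
  proj : P * P = P
  unit : ∀ x y, P * ψ x y = ψ x y ∧ ψ x y * P = ψ x y
  sq : ∀ x ∈ T, ψ x x = (x ⬝ᵥ q *ᵥ x) • P
  mul : ∀ x ∈ T, ∀ y ∈ T, ∀ z ∈ T, ψ x y * ψ y z = (y ⬝ᵥ q *ᵥ y) • ψ x z

/-- `β` is equivariant for the elements of `Δ`, for their action on `V(1)` and on `W` -/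
def Equivariant (χ : GK K →* ℚ_[ℓ]) (ρ : GK K →* Matrix n n ℚ_[ℓ]) (σ : GK K →* Matrix m m ℚ_[ℓ])
    (Δ : Subgroup (GK K)) (β : (n → ℚ_[ℓ]) → (n → ℚ_[ℓ]) → Matrix m m ℚ_[ℓ]) : Prop :=
  ∀ g ∈ Δ, ∀ x y, σ g * β x y = β (tw χ ρ g *ᵥ x) (tw χ ρ g *ᵥ y) * σ g

/-- An **equivariant even Clifford module** in `W`: a module `P W` of the even Clifford algebra of `T` (the orthogonal
complement of the Tate classes of `V`), such that the elements of the subgroup `Δ` of the Galois group act on `T(1)`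
and `W` compatibly. The first cohomology of a Kuga-Satake variety has this structure, with `P = 1`. -/
structure IsKugaSatake (q : Matrix n n ℚ_[ℓ]) (χ : GK K →* ℚ_[ℓ]) (ρ : GK K →* Matrix n n ℚ_[ℓ])
    (σ : GK K →* Matrix m m ℚ_[ℓ]) (Δ : Subgroup (GK K)) (P : Matrix m m ℚ_[ℓ])
    (ψ : (n → ℚ_[ℓ]) → (n → ℚ_[ℓ]) → Matrix m m ℚ_[ℓ]) : Prop where
  clifford : IsClifford q (orth q (tate χ ρ)) P ψ
  galois : Equivariant χ ρ σ Δ ψ

/-- The pair `(X, Y)` is in the Lie algebra of `V(1) ⊕ W`: it kills all tensors fixed by a subgroup of finite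
index of the Galois group, and preserves all subspaces stable under such a subgroup. -/
def InLie (χ : GK K →* ℚ_[ℓ]) (ρ : GK K →* Matrix n n ℚ_[ℓ]) (σ : GK K →* Matrix m m ℚ_[ℓ])
    (X : Matrix n n ℚ_[ℓ]) (Y : Matrix m m ℚ_[ℓ]) : Prop :=
  (Matrix.toLin' X).prodMap (Matrix.toLin' Y) ∈ LT ((rep χ ρ).prod (matRep σ))

/-- the matrix of the endomorphism `x ∧ y : z ↦ q(x, z) y - q(y, z) x` -/
noncomputable def skewM (q : Matrix n n ℚ_[ℓ]) (x y : n → ℚ_[ℓ]) : Matrix n n ℚ_[ℓ] :=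
  Matrix.of fun i j => y i * (q *ᵥ x) j - x i * (q *ᵥ y) j

/-- The pairs `(x ∧ y, (q(x, y) P - ψ(x, y)) / 2)`, for `x` and `y` in the transcendental part `T` of `V`, are in the
Lie algebra of `V(1) ⊕ W`. -/
def LieOf (q : Matrix n n ℚ_[ℓ]) (χ : GK K →* ℚ_[ℓ]) (ρ : GK K →* Matrix n n ℚ_[ℓ])
    (σ : GK K →* Matrix m m ℚ_[ℓ]) (P : Matrix m m ℚ_[ℓ])
    (ψ : (n → ℚ_[ℓ]) → (n → ℚ_[ℓ]) → Matrix m m ℚ_[ℓ]) : Prop :=
  ∀ x ∈ orth q (tate χ ρ), ∀ y ∈ orth q (tate χ ρ),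
    InLie χ ρ σ (skewM q x y) ((2⁻¹ : ℚ_[ℓ]) • ((x ⬝ᵥ q *ᵥ y) • P - ψ x y))

/-- `V(1)` and `W` are independent: the Lie algebra of `V(1) ⊕ W` contains `(X, 0)` for all `X` in the Lie algebra
of `V(1)`. -/
def Independent (χ : GK K →* ℚ_[ℓ]) (ρ : GK K →* Matrix n n ℚ_[ℓ]) (σ : GK K →* Matrix m m ℚ_[ℓ]) :
    Prop :=
  ∀ X ∈ tateLie χ ρ, InLie χ ρ σ X 0

/-- The only equivariant even Clifford module in `W` is zero, for all open subgroups of the Galois group. -/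
def NoKugaSatake (q : Matrix n n ℚ_[ℓ]) (χ : GK K →* ℚ_[ℓ]) (ρ : GK K →* Matrix n n ℚ_[ℓ])
    (σ : GK K →* Matrix m m ℚ_[ℓ]) : Prop :=
  ∀ (Δ : Subgroup (GK K)) (P : Matrix m m ℚ_[ℓ])
    (ψ : (n → ℚ_[ℓ]) → (n → ℚ_[ℓ]) → Matrix m m ℚ_[ℓ]),
    IsOpen (Δ : Set (GK K)) → IsKugaSatake q χ ρ σ Δ P ψ → P = 0

/-- Every bilinear map from `V(1) × V(1)` to the endomorphisms of `W` which is equivariant for an open subgroup `Δ`
of the Galois group is symmetric on the transcendental part of `V`. -/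
def MapsSymmetric (q : Matrix n n ℚ_[ℓ]) (χ : GK K →* ℚ_[ℓ]) (ρ : GK K →* Matrix n n ℚ_[ℓ])
    (σ : GK K →* Matrix m m ℚ_[ℓ]) : Prop :=
  ∀ (Δ : Subgroup (GK K)) (β : (n → ℚ_[ℓ]) → (n → ℚ_[ℓ]) → Matrix m m ℚ_[ℓ]),
    IsOpen (Δ : Set (GK K)) → Bilinear β → Equivariant χ ρ σ Δ β →
    ∀ x ∈ orth q (tate χ ρ), ∀ y ∈ orth q (tate χ ρ), β x y = β y x

theorem toLin_skewM (h : IsK3Type q S χ Pol ρ) (x y : n → ℚ_[ℓ]) :
    Matrix.toLin' (skewM q x y) = wdg (form q) x y := by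
  have e : ∀ u z : n → ℚ_[ℓ], ∑ j, (q *ᵥ u) j * z j = form q u z := by
    intro u z
    rw [form_symm h.symm, form_apply, dotProduct_comm]
    rfl
  refine LinearMap.ext fun z => ?_
  rw [toLin'_apply, wdg_apply]
  funext i
  change ∑ j, (y i * (q *ᵥ x) j - x i * (q *ᵥ y) j) * z j =
    form q x z * y i - form q y z * x i
  rw [← e, ← e, Finset.sum_mul, Finset.sum_mul, ← Finset.sum_sub_distrib]
  exact Finset.sum_congr rfl fun j _ => by ring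

theorem semisimple_rep {σ : GK K →* Matrix m m ℚ_[ℓ]} (hσ : Semisimple σ) :
    FiniteIndexSemisimple (matRep σ) := matRep_semisimple hσ

theorem weightOne_rep {σ : GK K →* Matrix m m ℚ_[ℓ]} (hσ : WeightOneRep σ) :
    ∃ Δ : Subgroup (GK K), IsOpen (Δ : Set (GK K)) ∧ WeightOne (matRep σ) Δ ⊤ ⊥ := by
  obtain ⟨Δ, S', j, hΔ, h2⟩ := hσ
  refine ⟨Δ, hΔ, S', j, fun p _ hp v hv g hg hgF => ?_⟩
  obtain ⟨P, hP, hPW, hPF⟩ := h2 p hp v hv g hg hgF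
  refine ⟨P, hP, hPW, fun x _ => ?_⟩
  have h4 : aeval ((p : ℚ_[ℓ]) ^ j • matRep σ g⁻¹) P =
      Matrix.toLinAlgEquiv' (aeval ((p : ℚ_[ℓ]) ^ j • σ g⁻¹) P : Matrix m m ℚ_[ℓ]) := by
    have h5 : (p : ℚ_[ℓ]) ^ j • matRep σ g⁻¹ =
        Matrix.toLinAlgEquiv' ((p : ℚ_[ℓ]) ^ j • σ g⁻¹) := by
      rw [map_smul]
      rfl
    rw [h5, aeval_def, aeval_def]
    have h6 := Polynomial.hom_eval₂ P (algebraMap ℤ (Matrix m m ℚ_[ℓ]))
      ((Matrix.toLinAlgEquiv' : Matrix m m ℚ_[ℓ] ≃ₐ[ℚ_[ℓ]] _) :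
        Matrix m m ℚ_[ℓ] →+* End ℚ_[ℓ] (m → ℚ_[ℓ])) ((p : ℚ_[ℓ]) ^ j • σ g⁻¹)
    rw [← RingHom.ext_int (((Matrix.toLinAlgEquiv' : Matrix m m ℚ_[ℓ] ≃ₐ[ℚ_[ℓ]] _) :
        Matrix m m ℚ_[ℓ] →+* End ℚ_[ℓ] (m → ℚ_[ℓ])).comp (algebraMap ℤ (Matrix m m ℚ_[ℓ])))
        (algebraMap ℤ (End ℚ_[ℓ] (m → ℚ_[ℓ])))]
    exact h6.symm
  rw [h4, hPF, map_zero]
  exact Submodule.zero_mem _

/-- a Clifford module whose operators are symmetric is zero -/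
theorem IsKugaSatake.zero {σ : GK K →* Matrix m m ℚ_[ℓ]} {Δ : Subgroup (GK K)}
    {P : Matrix m m ℚ_[ℓ]} {ψ : (n → ℚ_[ℓ]) → (n → ℚ_[ℓ]) → Matrix m m ℚ_[ℓ]}
    (p' : IsKugaSatake q χ ρ σ Δ P ψ) (hq : qᵀ = q)
    (hs : ∀ x ∈ orth q (tate χ ρ), ∀ y ∈ orth q (tate χ ρ), ψ x y = ψ y x)
    {x y : n → ℚ_[ℓ]} (hx : x ∈ orth q (tate χ ρ)) (hy : y ∈ orth q (tate χ ρ))
    (hxy : x ⬝ᵥ q *ᵥ y = 0) (hxx : x ⬝ᵥ q *ᵥ x ≠ 0) (hyy : y ⬝ᵥ q *ᵥ y ≠ 0) : P = 0 := by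
  have p := p'.clifford
  obtain ⟨f, hf⟩ := p.bilin
  have hyx : y ⬝ᵥ q *ᵥ x = 0 := by
    rw [← form_apply, form_symm hq, form_apply, hxy]
  have h1 := p.sq _ (Submodule.add_mem _ hx hy)
  have e : ψ (x + y) (x + y) = ψ x x + ψ x y + (ψ y x + ψ y y) := by
    rw [hf, hf, hf, hf, hf, map_add f, LinearMap.add_apply, map_add, map_add]
  rw [e, p.sq x hx, p.sq y hy, hs y hy x hx,
    Matrix.mulVec_add, dotProduct_add, add_dotProduct, add_dotProduct, hxy, hyx] at h1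
  have h2 : (2 : ℚ_[ℓ]) • ψ x y = 0 := by
    have h3 : (2 : ℚ_[ℓ]) • ψ x y = (x ⬝ᵥ q *ᵥ x) • P + ψ x y + (ψ x y + (y ⬝ᵥ q *ᵥ y) • P) -
        ((x ⬝ᵥ q *ᵥ x) • P + (y ⬝ᵥ q *ᵥ y) • P) := by module
    rw [h3, h1]
    module
  have h3 : ψ x y = 0 := (smul_eq_zero.1 h2).resolve_left two_ne_zero
  have h4 := p.mul x hx y hy x hx
  rw [h3, zero_mul, p.sq x hx, smul_smul] at h4
  exact (smul_eq_zero.1 h4.symm).resolve_left (mul_ne_zero hyy hxx)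

/-- **The Kuga-Satake dichotomy.** -/
theorem ks_main (h : IsK3Type q S χ Pol ρ) (hss : Semisimple ρ) (hc : ScalarEnds q χ ρ)
    (hd3 : 3 ≤ finrank ℚ_[ℓ] (orth q (tate χ ρ))) {σ : GK K →* Matrix m m ℚ_[ℓ]}
    (hσs : Semisimple σ) (hσ : WeightOneRep σ) :
    ∃ (P : Matrix m m ℚ_[ℓ]) (ψ : (n → ℚ_[ℓ]) → (n → ℚ_[ℓ]) → Matrix m m ℚ_[ℓ]),
      IsKugaSatake q χ ρ σ ⊤ P ψ ∧ LieOf q χ ρ σ P ψ ∧
      2 ^ ((finrank ℚ_[ℓ] (orth q (tate χ ρ)) - 1) / 2) ∣ P.rank ∧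
      List.TFAE [P = 0, Independent χ ρ σ, NoKugaSatake q χ ρ σ, MapsSymmetric q χ ρ σ] := by
  obtain ⟨a, U, W', Fr⟩ := exists_frame h hss hc
  obtain ⟨Δ, hΔ, hw⟩ := weightOne_rep hσ
  obtain ⟨P, A, p⟩ := kd_main h hss hc hd3 (semisimple_rep hσs) hΔ hw
  obtain ⟨π, π1, π2, π3⟩ := exists_pi h hss
  let π' : (n → ℚ_[ℓ]) →ₗ[ℚ_[ℓ]] (n → ℚ_[ℓ]) := (orth q (tate χ ρ)).subtype ∘ₗ π
  have hπ' : ∀ x, π' x = π x := fun x => rfl
  have hπT : ∀ x ∈ orth q (tate χ ρ), π' x = x := fun x hx => by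
    rw [hπ', π1 ⟨x, hx⟩]
  let Ψ : (n → ℚ_[ℓ]) →ₗ[ℚ_[ℓ]] (n → ℚ_[ℓ]) →ₗ[ℚ_[ℓ]] End ℚ_[ℓ] (m → ℚ_[ℓ]) :=
    ((form q).compl₁₂ π' π').compr₂ ((LinearMap.id : ℚ_[ℓ] →ₗ[ℚ_[ℓ]] ℚ_[ℓ]).smulRight P) +
      (-2 : ℚ_[ℓ]) • A
  have hΨ : ∀ x y, Ψ x y = form q (π' x) (π' y) • P - (2 : ℚ_[ℓ]) • A x y := fun x y => by
    have h1 : form q (π' x) (π' y) • P - (2 : ℚ_[ℓ]) • A x y =
        form q (π' x) (π' y) • P + (-2 : ℚ_[ℓ]) • A x y := by module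
    rw [h1]
    rfl
  have hΨT : ∀ x ∈ orth q (tate χ ρ), ∀ y ∈ orth q (tate χ ρ),
      Ψ x y = form q x y • P - (2 : ℚ_[ℓ]) • A x y := fun x hx y hy => by
    rw [hΨ, hπT x hx, hπT y hy]
  let ψ : (n → ℚ_[ℓ]) →ₗ[ℚ_[ℓ]] (n → ℚ_[ℓ]) →ₗ[ℚ_[ℓ]] Matrix m m ℚ_[ℓ] :=
    Ψ.compr₂ (LinearMap.toMatrix' : _ ≃ₗ[ℚ_[ℓ]] Matrix m m ℚ_[ℓ]).toLinearMap
  have hψ : ∀ x y, ψ x y = LinearMap.toMatrix' (Ψ x y) := fun x y => rfl
  have hsig : ∀ g, σ g = LinearMap.toMatrix' (matRep σ g) := fun g => by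
    have h1 : (matRep σ g) = Matrix.toLin' (σ g) := rfl
    rw [h1, LinearMap.toMatrix'_toLin']
  have hmul : ∀ X Y : End ℚ_[ℓ] (m → ℚ_[ℓ]), LinearMap.toMatrix' X * LinearMap.toMatrix' Y =
      LinearMap.toMatrix' (X * Y) := fun X Y => (LinearMap.toMatrix'_mul X Y).symm
  have hequi : ∀ g x y, matRep σ g * Ψ x y = Ψ (rep χ ρ g x) (rep χ ρ g y) * matRep σ g := by
    intro g x y
    rw [hΨ, hΨ, mul_sub, sub_mul, mul_smul_comm, mul_smul_comm, smul_mul_assoc, smul_mul_assoc,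
      p.equi, p.comm, hπ', hπ', hπ', hπ', π3, π3, form_rep h]
  have hKS : IsKugaSatake q χ ρ σ ⊤ (LinearMap.toMatrix' P) (fun x y => ψ x y) := by
    refine ⟨⟨⟨ψ, fun x y => rfl⟩, ?_, fun x y => ⟨?_, ?_⟩, fun x hx => ?_,
      fun x hx y hy z hz => ?_⟩, fun g _ x y => ?_⟩
    · rw [hmul, p.idem]
    · change LinearMap.toMatrix' P * ψ x y = ψ x y
      rw [hψ, hmul, hΨ, mul_sub, mul_smul_comm, mul_smul_comm, p.idem, (p.unit x y).1]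
    · change ψ x y * LinearMap.toMatrix' P = ψ x y
      rw [hψ, hmul, hΨ, sub_mul, smul_mul_assoc, smul_mul_assoc, p.idem, (p.unit x y).2]
    · change ψ x x = _
      rw [hψ, hΨT x hx x hx, p.alt, smul_zero, sub_zero, map_smul, form_apply]
    · change ψ x y * ψ y z = _ • ψ x z
      rw [hψ, hψ, hψ, hmul, hΨT x hx y hy, hΨT y hy z hz, hΨT x hx z hz, p.mul x hx y hy z hz,
        map_smul, form_apply q y y]
    · change σ g * ψ x y = ψ (tw χ ρ g *ᵥ x) (tw χ ρ g *ᵥ y) * σ g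
      rw [hψ, hψ, hsig, hmul, hequi, hmul]
      rfl
  refine ⟨LinearMap.toMatrix' P, fun x y => ψ x y, hKS, fun x hx y hy => ?_, ?_, ?_⟩
  · obtain ⟨Z, hZ, h1, h2⟩ := p.lie x hx y hy
    have h3 : (Matrix.toLin' (skewM q x y)).prodMap (Matrix.toLin' ((2⁻¹ : ℚ_[ℓ]) •
        ((x ⬝ᵥ q *ᵥ y) • LinearMap.toMatrix' P - ψ x y))) = Z := by
      refine LinearMap.ext fun z => ?_
      rw [LinearMap.prodMap_apply, lt_diag hZ z, h1, h2, toLin_skewM h, hψ, hΨT x hx y hy,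
        ← map_smul, ← map_sub, ← map_smul, Matrix.toLin'_toMatrix', form_apply]
      congr 1
      have h4 : (2⁻¹ : ℚ_[ℓ]) • ((x ⬝ᵥ q *ᵥ y) • P - ((x ⬝ᵥ q *ᵥ y) • P -
          (2 : ℚ_[ℓ]) • A x y)) = A x y := by
        rw [sub_sub_cancel, smul_smul, inv_mul_cancel₀ two_ne_zero, one_smul]
      rw [h4]
    unfold InLie
    rw [h3]
    exact hZ
  · have h1 := kd_dvd Fr h hd3 p
    rwa [Matrix.rank, ← Matrix.toLin'_apply', Matrix.toLin'_toMatrix']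
  · have hPz : LinearMap.toMatrix' P = 0 ↔ P = 0 := by
      rw [← map_zero (LinearMap.toMatrix' : _ ≃ₗ[ℚ_[ℓ]] Matrix m m ℚ_[ℓ])]
      exact (LinearMap.toMatrix' : _ ≃ₗ[ℚ_[ℓ]] Matrix m m ℚ_[ℓ]).injective.eq_iff
    obtain ⟨s, t, hst⟩ := exists_two hd3
    tfae_have 1 → 2 := by
      intro h1 X hX
      have h2 := ext_of_zero h Fr p (hPz.1 h1) (lin_mem_lieE hX)
      have h3 : (Matrix.toLin' X).prodMap (Matrix.toLin' (0 : Matrix m m ℚ_[ℓ])) =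
          ext1 (Matrix.toLin' X) := by
        refine LinearMap.ext fun z => ?_
        rw [LinearMap.prodMap_apply, ext1_apply, map_zero]
        rfl
      unfold InLie
      rw [h3]
      exact h2
    tfae_have 2 → 4 := by
      rintro h1 Δ β hΔ ⟨f, hf⟩ hβ x hx y hy
      have hcomp : CompactSpace (GK K) := inferInstance
      have hfin : Finite (GK K ⧸ Δ) := Subgroup.quotient_finite_of_isOpen _ hΔ
      have hΔf : Δ.FiniteIndex := Subgroup.finiteIndex_of_finite_quotient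
      have h2 := symm_of_ext (σ := matRep σ) h Fr hd3 (fun X hX => by
        obtain ⟨X, hX, rfl⟩ := hX
        have h3 : (Matrix.toLin' X).prodMap (Matrix.toLin' (0 : Matrix m m ℚ_[ℓ])) =
            ext1 (Matrix.toLin' X) := by
          refine LinearMap.ext fun z => ?_
          rw [LinearMap.prodMap_apply, ext1_apply, map_zero]
          rfl
        have h4 := h1 X hX
        unfold InLie at h4
        rw [h3] at h4
        exact h4)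
        (β := f.compr₂ (Matrix.toLin' : Matrix m m ℚ_[ℓ] ≃ₗ[ℚ_[ℓ]] _).toLinearMap) hΔf
        (fun g hg x y => by
          have h3 := congrArg Matrix.toLin' (hβ g hg x y)
          rw [Matrix.toLin'_mul, Matrix.toLin'_mul, hf, hf] at h3
          exact h3) hx hy
      rw [hf, hf]
      exact Matrix.toLin'.injective h2
    tfae_have 4 → 3 := by
      intro h1 Δ P' ψ' hΔ p'
      refine p'.zero h.symm (h1 Δ ψ' hΔ p'.clifford.bilin p'.galois) (ev_mem Fr s) (ev_mem Fr t) ?_ ?_ ?_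
      · rw [← form_apply, ev_ne Fr hst]
      · rw [← form_apply, ev_self Fr]
        exact Fr.ne s
      · rw [← form_apply, ev_self Fr]
        exact Fr.ne t
    tfae_have 3 → 1 := fun h1 => h1 ⊤ _ _ isOpen_univ hKS
    tfae_finish

end Pool.Agent.H851.KD
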